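import Pool.Agent.MP_b4c6b8_lc.H74.Tgt

/-! The construction of the subfield. -/

set_option linter.unusedSectionVars false

namespace Pool.Agent.MP_b4c6b8_lc.H74

open Polynomial Set

section Chain

/-- Dovetailing sequence. -/
noncomputable def seq {S : Type} (s0 : S) (g : S → S → ℕ → S) : ℕ → S
  | 0 => s0
  | k + 1 => g (seq s0 g k) (seq s0 g k.unpair.1) k.unpair.2
decreasing_by
  · omega
  · exact Nat.lt_succ_of_le (Nat.unpair_left_le k)

theorem chain {S τ : Type} (le : S → S → Prop) (refl : ∀ s, le s s)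
    (trans : ∀ a b c, le a b → le b c → le a c) (rel done : S → τ → Prop)
    (hc : ∀ s, {t | rel s t}.Countable) (mono : ∀ s s' t, le s s' → rel s t → rel s' t)
    (step : ∀ s t, rel s t → ∃ s', le s s' ∧ done s' t) (s0 : S) :
    ∃ f : ℕ → S, (∀ a b, a ≤ b → le (f a) (f b)) ∧
      ∀ k t, rel (f k) t → ∃ m, done (f m) t := by
  classical
  have h1 : ∀ s, ∃ e : ℕ → Option τ, ∀ t, rel s t → ∃ k, e k = some t := by
    intro s
    obtain ⟨e, he⟩ := (((hc s).image some).insert none).exists_eq_range (insert_nonempty _ _)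
    refine ⟨e, fun t ht => ?_⟩
    have : some t ∈ range e := he ▸ mem_insert_of_mem _ ⟨t, ht, rfl⟩
    exact this
  choose e he using h1
  have h2 : ∀ (s : S) (o : Option τ), ∃ s', le s s' ∧ ∀ t, o = some t → rel s t → done s' t := by
    intro s o
    by_cases h : ∃ t, o = some t ∧ rel s t
    · obtain ⟨t, rfl, ht⟩ := h
      obtain ⟨s', h1, h2⟩ := step s t ht
      exact ⟨s', h1, fun t' e _ => Option.some.inj e ▸ h2⟩
    · exact ⟨s, refl s, fun t e ht => absurd ⟨t, e, ht⟩ h⟩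
  choose g hg1 hg2 using h2
  let f := seq s0 fun s s' k => g s (e s' k)
  have hf : ∀ k, f (k + 1) = g (f k) (e (f k.unpair.1) k.unpair.2) := fun k => by
    simp only [f]; rw [seq]
  have hm : ∀ a b, a ≤ b → le (f a) (f b) := by
    intro a b hab
    induction hab with
    | refl => exact refl _
    | step _ ih => exact trans _ _ _ ih (hf _ ▸ hg1 _ _)
  refine ⟨f, hm, fun k t ht => ?_⟩
  obtain ⟨l, hl⟩ := he _ t ht
  refine ⟨Nat.pair k l + 1, ?_⟩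
  rw [hf, Nat.unpair_pair]
  exact hg2 _ _ t hl (mono _ _ t (hm _ _ (Nat.left_le_pair k l)) ht)

end Chain

section Preds
variable {F : Type} [CommRing F]

/-- Basic definable family. -/
def Xp (n : ℕ) (c d x : F) : Prop := ∃ ξ : Fin (n + 1) → F, Nm n c ξ = 1 + d * x ^ (n + 1)

/-- Inductive members of the family. -/
def Valid (n : ℕ) (c d : F) : Prop := Xp n c d 0 ∧ ∀ x, Xp n c d x → Xp n c d (x + 1)

/-- The coding predicate. -/
def Up (n : ℕ) (c0 ε x : F) : Prop :=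
  (∀ c d, Valid n c d → Xp n c d x) ∧ ∃ ξ : Fin (n + 1) → F, Nm n c0 ξ = 1 + x * ε

end Preds

variable {M R : Type} [Field M] [CharZero M] [Field R] [CharZero R] [IsAlgClosed R] {n : ℕ}
  {κ : M →+* R}

/-- Algebraic elements to be excluded. -/
def Zs (M : Type) [Field M] [CharZero M] (M0 : Set ℕ) : Set M :=
  {z | IsAlgebraic ℚ z ∧ z ∉ ((↑) : ℕ → M) '' M0}

/-- States of the construction. -/
structure St (tg : ∀ a : M, Tgt n κ a) (M0 : Set ℕ) (c0 ε : M) (B : Set M) where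
  E : Subfield M
  cnt : (E : Set M).Countable
  A : Set M
  c : M → M
  d : M → M
  ι : M → M → R
  hom : ∀ j ∈ A ∪ Zs M M0, HomOn E (ι j)
  maps : ∀ j ∈ A ∪ Zs M M0, ∀ x ∈ E, ι j x ∈ (tg j).H
  cE : ∀ j ∈ A ∪ Zs M M0, c j ∈ E ∧ d j ∈ E ∧ ι j (c j) = (tg j).t1 ∧ ι j (d j) = (tg j).t2
  aE : ∀ j ∈ A, j ∈ E ∧ 1 < (tg j).O.valuation ((tg j).t2 * ι j j ^ (n + 1)) ∧
    ∃ γ, γ ≠ 0 ∧ γ ^ (n + 1) = c j
  oth : ∀ i ∈ A, ∀ j ∈ A ∪ Zs M M0, i ≠ j → ∃ β ∈ (tg j).H, β ^ (n + 1) = ι j (c i)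
  zer : ∀ j ∈ A, ∃ β ∈ (tg j).H, β ^ (n + 1) = ι j c0
  zs : ∀ z ∈ Zs M M0, c z = c0 ∧ d z = 1 + z * ε ∧
    ∀ x ∈ M0, ∃ s ∈ (tg z).H, s ^ (n + 1) = ι z (1 + x * ε)
  base : c0 ∈ E ∧ ε ∈ E ∧ B ⊆ E

namespace St
variable {tg : ∀ a : M, Tgt n κ a} {M0 : Set ℕ} {c0 ε : M} {B : Set M}

/-- Extension of states. -/
def le (s s' : St tg M0 c0 ε B) : Prop :=
  s.E ≤ s'.E ∧ s.A ⊆ s'.A ∧
    ∀ j ∈ s.A ∪ Zs M M0, s'.c j = s.c j ∧ s'.d j = s.d j ∧ EqOn (s'.ι j) (s.ι j) s.E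

theorem le_refl (s : St tg M0 c0 ε B) : s.le s :=
  ⟨le_rfl, subset_rfl, fun _ _ => ⟨rfl, rfl, fun _ _ => rfl⟩⟩

theorem le_trans {a b c : St tg M0 c0 ε B} (h1 : a.le b) (h2 : b.le c) : a.le c := by
  refine ⟨h1.1.trans h2.1, h1.2.1.trans h2.2.1, fun j hj => ?_⟩
  obtain ⟨e1, e2, e3⟩ := h1.2.2 j hj
  obtain ⟨f1, f2, f3⟩ := h2.2.2 j (union_subset_union_left _ h1.2.1 hj)
  exact ⟨f1.trans e1, f2.trans e2, fun x hx => (f3 (h1.1 hx)).trans (e3 hx)⟩

theorem grow (s : St tg M0 c0 ε B) (E' : Subfield M) (hE : s.E ≤ E') (hc : (E' : Set M).Countable)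
    (P : M → (M → R) → Prop)
    (h : ∀ j ∈ s.A ∪ Zs M M0, ∃ ι' : M → R, HomOn E' ι' ∧ EqOn ι' (s.ι j) s.E ∧
      (∀ x ∈ E', ι' x ∈ (tg j).H) ∧ P j ι') :
    ∃ s' : St tg M0 c0 ε B, s.le s' ∧ s'.E = E' ∧ s'.A = s.A ∧
      ∀ j ∈ s.A ∪ Zs M M0, P j (s'.ι j) := by
  choose! ι' h1 h2 h3 h4 using h
  refine ⟨⟨E', hc, s.A, s.c, s.d, ι', h1, h3, ?_, ?_, ?_, ?_, ?_, ?_⟩,
    ⟨hE, subset_rfl, fun j hj => ⟨rfl, rfl, h2 j hj⟩⟩, rfl, rfl, h4⟩
  · intro j hj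
    obtain ⟨a1, a2, a3, a4⟩ := s.cE j hj
    exact ⟨hE a1, hE a2, (h2 j hj a1).trans a3, (h2 j hj a2).trans a4⟩
  · intro j hj
    obtain ⟨a1, a2, a3⟩ := s.aE j hj
    exact ⟨hE a1, by rwa [h2 j (Or.inl hj) a1], a3⟩
  · intro i hi j hj hij
    rw [h2 j hj (s.cE i (Or.inl hi)).1]
    exact s.oth i hi j hj hij
  · intro j hj
    rw [h2 j (Or.inl hj) s.base.1]
    exact s.zer j hj
  · intro z hz
    obtain ⟨a1, a2, a3⟩ := s.zs z hz
    refine ⟨a1, a2, fun x hx => ?_⟩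
    rw [h2 z (Or.inr hz) (s.E.add_mem s.E.one_mem (s.E.mul_mem (natCast_mem _ _) s.base.2.1))]
    exact a3 x hx
  · exact ⟨hE s.base.1, hE s.base.2.1, s.base.2.2.trans hE⟩

theorem uncH (hM : ¬ (univ : Set M).Countable) (j : M) : ¬ ((tg j).H : Set R).Countable := by
  intro h
  apply hM
  refine (h.preimage_of_injOn (f := κ) κ.injective.injOn).mono ?_
  intro m _
  exact (tg j).k1 m

theorem rangeS (s : St tg M0 c0 ε B) {j : M} (hj : j ∈ s.A ∪ Zs M M0) :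
    ∃ S : Subfield R, (S : Set R).Countable ∧ S ≤ (tg j).H ∧ ∀ a ∈ s.E, s.ι j a ∈ S := by
  haveI : Countable s.E := s.cnt
  refine ⟨(s.hom j hj).hom.fieldRange, countable_range _, ?_, fun a ha => ⟨⟨a, ha⟩, rfl⟩⟩
  rintro _ ⟨a, rfl⟩
  exact s.maps j hj a a.2

theorem indep_step (hM : ¬ (univ : Set M).Countable) (s : St tg M0 c0 ε B) {k : ℕ}
    {x : Fin k → M} (hx : AlgebraicIndependent s.E x) :
    ∃ s' : St tg M0 c0 ε B, s.le s' ∧ s'.E = adj s.E (range x) ∧ s'.A = s.A ∧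
      ∀ j ∈ s.A ∪ Zs M M0, ∀ i, ∃ β ∈ (tg j).H, β ^ (n + 1) = s'.ι j (x i) := by
  apply s.grow _ (le_adj _ _) (countable_adj s.cnt (countable_range x))
    (fun j ι' => ∀ i, ∃ β ∈ (tg j).H, β ^ (n + 1) = ι' (x i))
  intro j hj
  obtain ⟨S, hS, hSH, hm⟩ := s.rangeS hj
  obtain ⟨r, hrH, hr⟩ := exists_indep (uncH hM j) hS k
  have hr' : AlgebraicIndependent S fun i => r i ^ (n + 1) := by
    have := hr.polynomial_aeval_of_transcendental (f := fun _ => X ^ (n + 1)) (fun i =>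
      (transcendental_X S).pow n.succ_pos)
    simpa using this
  obtain ⟨ι', h1, h2, h3⟩ := (s.hom j hj).ext_indep hx hm hr'
  refine ⟨ι', h1, h2, h1.maps_adj (fun a ha => h2 ha ▸ s.maps j hj a ha) ?_,
    fun i => ⟨r i, hrH i, (h3 i).symm⟩⟩
  rintro _ ⟨i, rfl⟩
  rw [h3]
  exact (tg j).H.pow_mem (hrH i) _

theorem alg_step (s : St tg M0 c0 ε B) {b : M} {p : M[X]} (hp0 : p ≠ 0) (hd : p.natDegree < n + 1)
    (hc : ∀ i, p.coeff i ∈ s.E) (hb : p.eval b = 0) :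
    ∃ s' : St tg M0 c0 ε B, s.le s' ∧ b ∈ s'.E := by
  obtain ⟨p', rfl⟩ := lift_poly p hc
  obtain ⟨s', h1, h2, -, -⟩ := s.grow (adj s.E {b}) (le_adj _ _)
    (countable_adj s.cnt (countable_singleton b)) (fun _ _ => True) (by
      intro j hj
      obtain ⟨ι', h1, h2, h3⟩ := (s.hom j hj).ext_alg (s.maps j hj) (tg j).small (b := b) p'
        (by rintro rfl; simp at hp0) (by rwa [aeval_def, ← eval_map])
        (Or.inl (by rwa [natDegree_map] at hd))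
      exact ⟨ι', h1, h2, h3, trivial⟩)
  exact ⟨s', h1, h2 ▸ sub_adj _ _ rfl⟩

theorem norm_step (hn : 1 ≤ n) (hM : ¬ (univ : Set M).Countable) (s : St tg M0 c0 ε B) {c u γ : M}
    (hc : c ∈ s.E) (hu : u ∈ s.E) (hu0 : u ≠ 0) (hγ0 : γ ≠ 0) (hγ : γ ^ (n + 1) = c)
    (h : ∀ j ∈ s.A ∪ Zs M M0, (∃ β ∈ (tg j).H, β ^ (n + 1) = s.ι j c) ∨
      (s.ι j c = (tg j).t1 ∧ ∃ β ∈ (tg j).H, β ^ (n + 1) = s.ι j u)) :
    ∃ s' : St tg M0 c0 ε B, s.le s' ∧ ∃ ξ : Fin (n + 1) → M, (∀ i, ξ i ∈ s'.E) ∧ Nm n c ξ = u := by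
  obtain ⟨ξ, -, hN, hI⟩ := avail_root hn (H := ⊤) (by simpa using hM) s.cnt le_top
    (Subfield.mem_top γ) hγ0 hu
  rw [hγ] at hN
  have hc0 : c ≠ 0 := hγ ▸ pow_ne_zero _ hγ0
  let E1 := adj s.E (range (Fin.tail ξ))
  let p : E1[X] := Pn n ⟨c, le_adj _ _ hc⟩ (fun i => ⟨Fin.tail ξ i, sub_adj _ _ ⟨i, rfl⟩⟩) -
    C ⟨u, le_adj _ _ hu⟩
  have hp := Pn_monic n (⟨c, le_adj _ _ hc⟩ : E1) (fun i => ⟨Fin.tail ξ i, sub_adj _ _ ⟨i, rfl⟩⟩)
  have hpd : p.natDegree = n + 1 := by rw [natDegree_sub_C, hp.2]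
  have hpm : p.Monic := by
    apply hp.1.sub_of_left
    refine degree_C_le.trans_lt ?_
    rw [degree_eq_natDegree hp.1.ne_zero, hp.2]
    exact_mod_cast n.succ_pos
  have hpe : aeval (ξ 0) p = 0 := by
    rw [aeval_def, ← eval_map, Polynomial.map_sub, Pn_map, eval_sub, Pn_eval, map_C, eval_C]
    change Nm n c (Fin.cons (ξ 0) (Fin.tail ξ)) - u = 0
    rw [Fin.cons_self_tail, hN, sub_self]
  obtain ⟨s', h1, h2, -, -⟩ := s.grow (adj E1 {ξ 0}) ((le_adj _ _).trans (le_adj _ _))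
    (countable_adj (countable_adj s.cnt (countable_range _)) (countable_singleton _))
    (fun _ _ => True) (by
      intro j hj
      obtain ⟨S, hS, hSH, hm⟩ := s.rangeS hj
      have : ∃ ξ' : Fin (n + 1) → R, (∀ i, ξ' i ∈ (tg j).H) ∧ Nm n (s.ι j c) ξ' = s.ι j u ∧
          AlgebraicIndependent S (Fin.tail ξ') := by
        rcases h j hj with ⟨β, hβ, he⟩ | ⟨he, β, hβ, he'⟩
        · rw [← he]
          refine avail_root hn (uncH hM j) hS hSH hβ ?_ (hm u hu)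
          rintro rfl
          exact (s.hom j hj).ne hc hc0 (by rw [← he]; simp)
        · rw [he, ← he']
          refine (tg j).avail_own (uncH hM j) hS hSH (he ▸ hm c hc) hβ ?_
          rintro rfl
          exact (s.hom j hj).ne hu hu0 (by rw [← he']; simp)
      obtain ⟨ξ', hH, hN', hI'⟩ := this
      obtain ⟨ι1, a1, a2, a3⟩ := (s.hom j hj).ext_indep hI hm hI'
      have a4 : ∀ x ∈ E1, ι1 x ∈ (tg j).H :=
        a1.maps_adj (fun a ha => a2 ha ▸ s.maps j hj a ha) (by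
          rintro _ ⟨i, rfl⟩
          rw [a3]
          exact hH _)
      obtain ⟨ι2, b1, b2, b3⟩ := a1.ext_alg a4 (tg j).small p hpm.ne_zero hpe
        (Or.inr ⟨hpm, hpd, ξ' 0, hH 0, by
          rw [Polynomial.map_sub, Pn_map, eval_sub, Pn_eval, map_C, eval_C]
          simp only [HomOn.hom_apply, a3, a2 hc, a2 hu]
          rw [Fin.cons_self_tail, hN', sub_self]⟩)
      exact ⟨ι2, b1, fun x hx => (b2 (le_adj _ _ hx)).trans (a2 hx), b3, trivial⟩)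
  refine ⟨s', h1, ξ, fun i => ?_, hN⟩
  rw [h2]
  refine Fin.cases ?_ (fun k => ?_) i
  · exact sub_adj _ _ rfl
  · exact le_adj _ _ (sub_adj _ _ ⟨k, rfl⟩)

theorem exists_pair (hM : ¬ (univ : Set M).Countable) {E : Subfield M} (hE : (E : Set M).Countable) :
    ∃ γ e : M, γ ≠ 0 ∧ AlgebraicIndependent E ![γ ^ (n + 1), e] := by
  obtain ⟨r, -, hr⟩ := exists_indep hM hE 2
  refine ⟨r 0, r 1, hr.ne_zero 0, ?_⟩
  have := hr.polynomial_aeval_of_transcendental (f := ![X ^ (n + 1), X]) (fun i => by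
    fin_cases i
    · exact (transcendental_X E).pow n.succ_pos
    · exact transcendental_X E)
  convert this using 1
  funext i
  fin_cases i <;> simp

theorem guard_step (hM : ¬ (univ : Set M).Countable) (s : St tg M0 c0 ε B) {a : M} (ha : a ∈ s.E)
    (ht : Transcendental ℚ a) : ∃ s' : St tg M0 c0 ε B, s.le s' ∧ a ∈ s'.A := by
  classical
  by_cases haA : a ∈ s.A
  · exact ⟨s, s.le_refl, haA⟩
  have haJ : a ∉ s.A ∪ Zs M M0 := fun h => h.elim haA fun h => ht h.1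
  obtain ⟨γ, e, hγ, hI⟩ := exists_pair (n := n) hM s.cnt
  obtain ⟨s1, h1, hE, hA, hP⟩ := s.indep_step hM hI
  have hκ : HomOn s.E κ := ⟨κ.map_one, fun x _ y _ => κ.map_add x y, fun x _ y _ => κ.map_mul x y⟩
  obtain ⟨ι', b1, b2, b3⟩ := hκ.ext_indep hI (S := κ.fieldRange) (fun x _ => ⟨x, rfl⟩) (tg a).k3
  have b4 : ∀ x ∈ adj s.E (range ![γ ^ (n + 1), e]), ι' x ∈ (tg a).H :=
    b1.maps_adj (fun x hx => b2 hx ▸ (tg a).k1 x) (by
      rintro _ ⟨i, rfl⟩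
      rw [b3]
      fin_cases i
      · exact (tg a).m1
      · exact (tg a).m2)
  rw [← hE] at b1 b4
  have ne : ∀ j ∈ s.A ∪ Zs M M0, j ≠ a := fun j hj e => haJ (e ▸ hj)
  have cases : ∀ j ∈ insert a s.A ∪ Zs M M0, j = a ∨ (j ≠ a ∧ j ∈ s1.A ∪ Zs M M0) := by
    intro j hj
    by_cases e : j = a
    · exact Or.inl e
    · refine Or.inr ⟨e, ?_⟩
      rw [hA]
      rcases hj with (h | h) | h
      · exact absurd h e
      · exact Or.inl h
      · exact Or.inr h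
  have casesA : ∀ j ∈ insert a s.A, j = a ∨ (j ≠ a ∧ j ∈ s.A) := by
    intro j hj
    by_cases e : j = a
    · exact Or.inl e
    · exact Or.inr ⟨e, hj.resolve_left e⟩
  have m0 : γ ^ (n + 1) ∈ s1.E := hE ▸ sub_adj _ _ ⟨0, rfl⟩
  have m1 : e ∈ s1.E := hE ▸ sub_adj _ _ ⟨1, rfl⟩
  refine ⟨⟨s1.E, s1.cnt, insert a s.A, Function.update s1.c a (γ ^ (n + 1)),
    Function.update s1.d a e, Function.update s1.ι a ι', ?_, ?_, ?_, ?_, ?_, ?_, ?_, s1.base⟩,
    ⟨h1.1, subset_insert _ _, ?_⟩, mem_insert _ _⟩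
  · intro j hj
    rcases cases j hj with rfl | ⟨e, hj⟩
    · rwa [Function.update_self]
    · rw [Function.update_of_ne e]; exact s1.hom j hj
  · intro j hj
    rcases cases j hj with rfl | ⟨e, hj⟩
    · rwa [Function.update_self]
    · rw [Function.update_of_ne e]; exact s1.maps j hj
  · intro j hj
    rcases cases j hj with rfl | ⟨e, hj⟩
    · simp only [Function.update_self]
      exact ⟨m0, m1, b3 0, b3 1⟩
    · simp only [Function.update_of_ne e]; exact s1.cE j hj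
  · intro j hj
    rcases casesA j hj with rfl | ⟨e, hj⟩
    · simp only [Function.update_self]
      exact ⟨h1.1 ha, by rw [b2 ha]; exact (tg j).k5 ht, γ, hγ, rfl⟩
    · simp only [Function.update_of_ne e]; exact s1.aE j (hA ▸ hj)
  · intro i hi j hj hij
    rcases cases j hj with rfl | ⟨e, hj'⟩
    · have hi' : i ∈ s.A := hi.resolve_left hij
      simp only [Function.update_self, Function.update_of_ne hij]
      rw [(h1.2.2 i (Or.inl hi')).1, b2 (s.cE i (Or.inl hi')).1]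
      exact (tg j).k2 _
    · rcases casesA i hi with rfl | ⟨e', hi⟩
      · simp only [Function.update_self, Function.update_of_ne e]
        exact hP j (hA ▸ hj') 0
      · simp only [Function.update_of_ne e, Function.update_of_ne e']
        exact s1.oth i (hA ▸ hi) j hj' hij
  · intro j hj
    rcases casesA j hj with rfl | ⟨e, hj⟩
    · simp only [Function.update_self]
      rw [b2 s.base.1]
      exact (tg j).k2 _
    · simp only [Function.update_of_ne e]; exact s1.zer j (hA ▸ hj)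
  · intro z hz
    simp only [Function.update_of_ne (ne z (Or.inr hz))]
    exact s1.zs z hz
  · intro j hj
    simp only [Function.update_of_ne (ne j hj)]
    exact h1.2.2 j hj

end St

theorem exists_init (hM : ¬ (univ : Set M).Countable) (tg : ∀ a : M, Tgt n κ a) (M0 : Set ℕ)
    (h0 : 0 ∈ M0) {B : Set M} (hB : B.Countable) :
    ∃ c0 ε γ : M, γ ≠ 0 ∧ γ ^ (n + 1) = c0 ∧ (∀ x : ℕ, 1 + x * ε ≠ 0) ∧
      Nonempty (St tg M0 c0 ε B) := by
  let E0 := Subfield.closure (B ∪ {z | IsAlgebraic ℚ z})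
  have hE0 : (E0 : Set M).Countable := countable_closure (hB.union (Algebraic.countable ℚ M))
  obtain ⟨γ, ε, hγ, hI⟩ := St.exists_pair (n := n) hM hE0
  have hκ : HomOn E0 κ := ⟨κ.map_one, fun x _ y _ => κ.map_add x y, fun x _ y _ => κ.map_mul x y⟩
  let E1 := adj E0 (range ![γ ^ (n + 1), ε])
  have m0 : γ ^ (n + 1) ∈ E1 := sub_adj _ _ ⟨0, rfl⟩
  have m1 : ε ∈ E1 := sub_adj _ _ ⟨1, rfl⟩
  have mz : ∀ z : M, IsAlgebraic ℚ z → z ∈ E0 := fun z hz => Subfield.subset_closure (Or.inr hz)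
  have z0 : ∀ z ∈ Zs M M0, κ z ≠ 0 := by
    intro z hz e
    rw [map_eq_zero] at e
    exact hz.2 ⟨0, h0, by simp [e]⟩
  have key : ∀ z ∈ Zs M M0, ∃ ι' : M → R, HomOn E1 ι' ∧ EqOn ι' κ E0 ∧
      (∀ x ∈ E1, ι' x ∈ (tg z).H) ∧ ι' (γ ^ (n + 1)) = (tg z).t1 ∧
      ι' ε = ((tg z).t2 - 1) / κ z := by
    intro z hz
    have hI' : AlgebraicIndependent κ.fieldRange ![(tg z).t1, ((tg z).t2 - 1) / κ z] := by
      apply indep_of_acl (tg z).k3
      intro i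
      apply adj_le_acl
      fin_cases i
      · exact sub_adj _ _ ⟨0, rfl⟩
      · have e : (tg z).t2 = 1 + κ z * (((tg z).t2 - 1) / κ z) := by
          rw [mul_div_cancel₀ _ (z0 z hz)]; ring
        change (tg z).t2 ∈ _
        rw [e]
        refine add_mem (one_mem _) (mul_mem (le_adj _ _ ⟨z, rfl⟩) ?_)
        rw [← e]
        exact sub_adj _ _ ⟨1, rfl⟩
    obtain ⟨ι', b1, b2, b3⟩ := hκ.ext_indep hI (S := κ.fieldRange) (fun x _ => ⟨x, rfl⟩) hI'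
    refine ⟨ι', b1, b2, b1.maps_adj (fun x hx => b2 hx ▸ (tg z).k1 x) ?_, b3 0, b3 1⟩
    rintro _ ⟨i, rfl⟩
    rw [b3]
    fin_cases i
    · exact (tg z).m1
    · exact div_mem (sub_mem (tg z).m2 (one_mem _)) ((tg z).k1 z)
  choose! ι' b1 b2 b3 b4 b5 using key
  have val : ∀ z ∈ Zs M M0, ∀ x : M, IsAlgebraic ℚ x →
      ι' z (1 + x * ε) = 1 + κ x * (((tg z).t2 - 1) / κ z) := by
    intro z hz x hx
    have hx1 : x ∈ E1 := le_adj _ _ (mz x hx)
    rw [(b1 z hz).add _ (one_mem _) _ (mul_mem hx1 m1), (b1 z hz).one, (b1 z hz).mul _ hx1 _ m1,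
      b2 z hz (mz x hx), b5 z hz]
  refine ⟨γ ^ (n + 1), ε, γ, hγ, rfl, ?_, ⟨⟨E1, countable_adj hE0 (countable_range _), ∅,
    fun _ => γ ^ (n + 1), fun z => 1 + z * ε, ι', ?_, ?_, ?_, ?_, ?_, ?_, ?_, m0, m1, ?_⟩⟩⟩
  · intro x hx
    apply hI.transcendental 1
    have hx0 : (x : M) ≠ 0 := by
      intro e; rw [e] at hx; simp at hx
    have e : ε = -(x : M)⁻¹ := by field_simp; linear_combination hx
    change IsAlgebraic E0 ε
    rw [e]
    exact (isAlgebraic_natCast x).inv.neg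
  · simpa using b1
  · simpa using b3
  · simp only [empty_union]
    intro z hz
    refine ⟨m0, add_mem (one_mem _) (mul_mem (le_adj _ _ (mz z hz.1)) m1), b4 z hz, ?_⟩
    rw [val z hz z hz.1, mul_div_cancel₀ _ (z0 z hz)]
    ring
  · simp
  · simp
  · simp
  · intro z hz
    refine ⟨rfl, rfl, fun x hx => ?_⟩
    have hzx : z - x ≠ 0 := fun e => hz.2 ⟨x, hx, (sub_eq_zero.1 e).symm⟩
    have hz0 : z ≠ 0 := fun e => z0 z hz (by simp [e])
    obtain ⟨β, hβ, he⟩ := (tg z).k2 ((z - x) / z)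
    obtain ⟨y, hy, hy'⟩ := (tg z).hens (1 + κ (x / (z - x)) * (tg z).t2)
      (add_mem (one_mem _) (mul_mem ((tg z).k1 _) (tg z).m2)) (by
        rw [add_sub_cancel_left, map_mul]
        refine mul_lt_one_of_nonneg_of_lt_one_right ((tg z).k4 _ ?_) zero_le' (tg z).l2
        rw [div_eq_mul_inv]
        exact (isAlgebraic_natCast x).mul (hz.1.sub (isAlgebraic_natCast x)).inv)
    refine ⟨β * y, mul_mem hβ hy, ?_⟩
    rw [mul_pow, he, hy', val z hz x (isAlgebraic_natCast x)]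
    have h1 := z0 z hz
    have h2 : κ z - κ x ≠ 0 := by rw [← map_sub]; exact (_root_.map_ne_zero κ).2 hzx
    simp only [map_div₀, map_sub]
    field_simp
    ring
  · exact fun x hx => le_adj _ _ (Subfield.subset_closure (Or.inl hx))

theorem Xp_sub {L : Subfield M} (c d x : L) : Xp n c d x ↔
    ∃ ξ : Fin (n + 1) → M, (∀ i, ξ i ∈ L) ∧ Nm n (c : M) ξ = 1 + d * (x : M) ^ (n + 1) := by
  constructor
  · rintro ⟨ξ, h⟩
    refine ⟨fun i => ξ i, fun i => (ξ i).2, ?_⟩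
    have := congrArg L.subtype h
    rw [Nm_map] at this
    exact this
  · rintro ⟨ξ, h1, h⟩
    refine ⟨fun i => ⟨ξ i, h1 i⟩, L.subtype.injective ?_⟩
    rw [Nm_map]
    exact h

theorem Yp_sub {L : Subfield M} (c e x : L) : (∃ ξ : Fin (n + 1) → L, Nm n c ξ = 1 + x * e) ↔
    ∃ ξ : Fin (n + 1) → M, (∀ i, ξ i ∈ L) ∧ Nm n (c : M) ξ = 1 + x * (e : M) := by
  constructor
  · rintro ⟨ξ, h⟩
    refine ⟨fun i => ξ i, fun i => (ξ i).2, ?_⟩
    have := congrArg L.subtype h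
    rw [Nm_map] at this
    exact this
  · rintro ⟨ξ, h1, h⟩
    refine ⟨fun i => ⟨ξ i, h1 i⟩, L.subtype.injective ?_⟩
    rw [Nm_map]
    exact h

attribute [local irreducible] Nm

theorem build_aux (hn : 1 ≤ n) (hM : ¬ (univ : Set M).Countable) (tg : ∀ a : M, Tgt n κ a)
    (M0 : Set ℕ) (h0 : 0 ∈ M0) {B : Set M} (hB : B.Countable) {I : Type} [Countable I]
    (ar : I → ℕ) (D : ∀ i, (Fin (ar i) → M) → Set M)
    (hD : ∀ i a, (D i a).Countable → (D i a).Nonempty → ∃ b ∈ D i a, ∃ p : M[X], p ≠ 0 ∧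
      p.natDegree < n + 1 ∧ (∀ k, p.coeff k ∈ Subfield.closure (B ∪ range a)) ∧ p.eval b = 0) :
    ∃ L : Subfield M, (∀ i a, (∀ k, a k ∈ L) → (D i a).Nonempty → ∃ b ∈ L, b ∈ D i a) ∧
      ∃ c0 ε : L, ∀ x : L, Up n c0 ε x ↔ ∃ m ∈ M0, x = m := by
  classical
  obtain ⟨c0, ε, γ0, hγ0, hγ, hε, ⟨s0⟩⟩ := exists_init hM tg M0 h0 hB
  let τ := (Σ i : I, (Fin (ar i) → M)) ⊕ M ⊕ (M × M) ⊕ ℕ
  let rel : St tg M0 c0 ε B → τ → Prop := fun s t => match t with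
    | .inl ⟨_, a⟩ => ∀ k, a k ∈ s.E
    | .inr (.inl a) => a ∈ s.E ∧ Transcendental ℚ a
    | .inr (.inr (.inl (j, x))) => j ∈ s.A ∧ x ∈ s.E ∧
        (tg j).O.valuation ((tg j).t2 * s.ι j x ^ (n + 1)) < 1
    | .inr (.inr (.inr x)) => x ∈ M0
  let done : St tg M0 c0 ε B → τ → Prop := fun s t => match t with
    | .inl ⟨i, a⟩ => (D i a).Nonempty → ∃ b ∈ s.E, b ∈ D i a
    | .inr (.inl a) => a ∈ s.A
    | .inr (.inr (.inl (j, x))) => j ∈ s.A ∧ ∃ ξ : Fin (n + 1) → M, (∀ i, ξ i ∈ s.E) ∧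
        Nm n (s.c j) ξ = 1 + s.d j * x ^ (n + 1)
    | .inr (.inr (.inr x)) => ∃ ξ : Fin (n + 1) → M, (∀ i, ξ i ∈ s.E) ∧ Nm n c0 ξ = 1 + x * ε
  obtain ⟨f, hf, hdone⟩ := chain St.le St.le_refl (fun _ _ _ => St.le_trans) rel done (by
      intro s
      haveI : Countable s.E := s.cnt
      let g : (Σ i : I, (Fin (ar i) → s.E)) ⊕ s.E ⊕ (s.E × s.E) ⊕ ℕ → τ :=
        Sum.map (fun p => ⟨p.1, fun k => p.2 k⟩)
          (Sum.map (↑) (Sum.map (fun p => (p.1, p.2)) id))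
      refine (countable_range g).mono ?_
      rintro (⟨i, a⟩ | a | ⟨j, x⟩ | x) h
      · exact ⟨.inl ⟨i, fun k => ⟨a k, h k⟩⟩, rfl⟩
      · exact ⟨.inr (.inl ⟨a, h.1⟩), rfl⟩
      · exact ⟨.inr (.inr (.inl (⟨j, (s.aE j h.1).1⟩, ⟨x, h.2.1⟩))), rfl⟩
      · exact ⟨.inr (.inr (.inr x)), rfl⟩) (by
      rintro s s' (⟨i, a⟩ | a | ⟨j, x⟩ | x) hle h
      · exact fun k => hle.1 (h k)
      · exact ⟨hle.1 h.1, h.2⟩
      · refine ⟨hle.2.1 h.1, hle.1 h.2.1, ?_⟩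
        rw [(hle.2.2 j (Or.inl h.1)).2.2 h.2.1]
        exact h.2.2
      · exact h) (by
      rintro s (⟨i, a⟩ | a | ⟨j, x⟩ | x) h
      · by_cases hne : (D i a).Nonempty
        swap
        · exact ⟨s, s.le_refl, fun h => absurd h hne⟩
        by_cases hc : (D i a).Countable
        · obtain ⟨b, hb, p, hp0, hd, hco, he⟩ := hD i a hc hne
          obtain ⟨s', h1, h2⟩ := s.alg_step hp0 hd (fun k => by
            refine (Subfield.closure_le.2 ?_ : _ ≤ s.E) (hco k)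
            exact union_subset s.base.2.2 (range_subset_iff.2 h)) he
          exact ⟨s', h1, fun _ => ⟨b, h2, hb⟩⟩
        · obtain ⟨r, hr, hI⟩ := exists_indep hc s.cnt 1
          obtain ⟨s', h1, h2, -⟩ := s.indep_step hM hI
          exact ⟨s', h1, fun _ => ⟨r 0, h2 ▸ sub_adj _ _ ⟨0, rfl⟩, hr 0⟩⟩
      · exact s.guard_step hM h.1 h.2
      · obtain ⟨hj, hx, hv⟩ := h
        obtain ⟨a1, a2, a3, a4⟩ := s.cE j (Or.inl hj)
        obtain ⟨-, -, γ, hγ0, hγ⟩ := s.aE j hj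
        have hh := s.hom j (Or.inl hj)
        have hu : 1 + s.d j * x ^ (n + 1) ∈ s.E := add_mem (one_mem _) (mul_mem a2 (pow_mem hx _))
        have e : s.ι j (1 + s.d j * x ^ (n + 1)) = 1 + (tg j).t2 * s.ι j x ^ (n + 1) := by
          rw [hh.add _ (one_mem _) _ (mul_mem a2 (pow_mem hx _)), hh.one,
            hh.mul _ a2 _ (pow_mem hx _), a4, hh.pow hx]
        obtain ⟨s', h1, ξ, h2, h3⟩ := s.norm_step hn hM a1 hu (by
            intro h0
            rw [h0, hh.zero] at e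
            have := (tg j).O.valuation.map_one_add_of_lt hv
            rw [← e, map_zero] at this
            exact zero_ne_one this) hγ0 hγ (by
            intro i hi
            by_cases hij : j = i
            · subst hij
              obtain ⟨y, hy, hy'⟩ := (tg j).hens _ (s.maps j hi _ hu) (by
                rwa [e, add_sub_cancel_left])
              exact Or.inr ⟨a3, y, hy, hy'⟩
            · exact Or.inl (s.oth j hj i hi hij))
        obtain ⟨e1, e2, -⟩ := h1.2.2 j (Or.inl hj)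
        exact ⟨s', h1, h1.2.1 hj, ξ, h2, by rw [e1, e2, h3]⟩
      · exact s.norm_step hn hM s.base.1
          (add_mem (one_mem _) (mul_mem (natCast_mem _ _) s.base.2.1)) (hε x) hγ0 hγ (by
            rintro i (hi | hi)
            · exact Or.inl (s.zer i hi)
            · obtain ⟨a1, a2, a3⟩ := s.zs i hi
              have a4 := (s.cE i (Or.inr hi)).2.2.1
              rw [a1] at a4
              exact Or.inr ⟨a4, a3 x h⟩)) s0
  have hdir : Directed (· ≤ ·) fun k => (f k).E := fun a b =>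
    ⟨max a b, (hf _ _ (le_max_left _ _)).1, (hf _ _ (le_max_right _ _)).1⟩
  let L : Subfield M := ⨆ k, (f k).E
  have hL : ∀ x, x ∈ L ↔ ∃ k, x ∈ (f k).E := fun x => Subfield.mem_iSup_of_directed hdir
  have inL : ∀ k, (f k).E ≤ L := fun k x hx => (hL x).2 ⟨k, hx⟩
  have fin : ∀ {m : ℕ} (a : Fin m → M), (∀ i, a i ∈ L) → ∀ k0, ∃ k, k0 ≤ k ∧ ∀ i, a i ∈ (f k).E := by
    intro m a ha k0
    choose g hg using fun i => (hL _).1 (ha i)
    exact ⟨max k0 (Finset.univ.sup g), le_max_left _ _, fun i => (hf _ _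
      ((Finset.le_sup (f := g) (Finset.mem_univ i)).trans (le_max_right _ _))).1 (hg i)⟩
  have sound : ∀ k, ∀ j ∈ (f k).A, ∀ x ∈ L, (∃ ξ : Fin (n + 1) → M, (∀ i, ξ i ∈ L) ∧
      Nm n ((f k).c j) ξ = 1 + (f k).d j * x ^ (n + 1)) → ∃ l, k ≤ l ∧ x ∈ (f l).E ∧
        (tg j).O.valuation ((tg j).t2 * (f l).ι j x ^ (n + 1)) < 1 := by
    rintro k j hj x hx ⟨ξ, h1, h2⟩
    obtain ⟨k1, hx1⟩ := (hL x).1 hx
    obtain ⟨l, hl, hξ⟩ := fin ξ h1 (max k k1)
    have hkl : k ≤ l := (le_max_left _ _).trans hl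
    have hxl : x ∈ (f l).E := (hf _ _ ((le_max_right _ _).trans hl)).1 hx1
    refine ⟨l, hkl, hxl, ?_⟩
    have hj' : j ∈ (f l).A ∪ Zs M M0 := Or.inl ((hf _ _ hkl).2.1 hj)
    obtain ⟨e1, e2, -⟩ := (hf _ _ hkl).2.2 j (Or.inl hj)
    rw [← e1, ← e2] at h2
    obtain ⟨a1, a2, a3, a4⟩ := (f l).cE j hj'
    have hh := (f l).hom j hj'
    apply (tg j).lt_of_norm (fun i => (f l).maps j hj' _ (hξ i)) ((f l).maps j hj' _ hxl) hn
    rw [← a3, ← hh.nm a1 hξ, h2, hh.add _ (one_mem _) _ (mul_mem a2 (pow_mem hxl _)), hh.one,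
      hh.mul _ a2 _ (pow_mem hxl _), a4, hh.pow hxl]
  have complete : ∀ k, ∀ j ∈ (f k).A, ∀ l, k ≤ l → ∀ x ∈ (f l).E,
      (tg j).O.valuation ((tg j).t2 * (f l).ι j x ^ (n + 1)) < 1 →
      ∃ ξ : Fin (n + 1) → M, (∀ i, ξ i ∈ L) ∧
        Nm n ((f k).c j) ξ = 1 + (f k).d j * x ^ (n + 1) := by
    intro k j hj l hkl x hx hv
    obtain ⟨m, hm, ξ, h1, h2⟩ := hdone l (.inr (.inr (.inl (j, x)))) ⟨(hf _ _ hkl).2.1 hj, hx, hv⟩
    refine ⟨ξ, fun i => inL m (h1 i), ?_⟩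
    obtain ⟨e1, e2, -⟩ := (hf _ _ (le_max_left k m)).2.2 j (Or.inl hj)
    obtain ⟨e3, e4, -⟩ := (hf _ _ (le_max_right k m)).2.2 j (Or.inl hm)
    rw [← e1, ← e2, e3, e4, h2]
  refine ⟨L, ?_, ⟨c0, inL 0 (f 0).base.1⟩, ⟨ε, inL 0 (f 0).base.2.1⟩, fun x => ⟨?_, ?_⟩⟩
  · intro i a ha hne
    obtain ⟨k, -, hk⟩ := fin a ha 0
    obtain ⟨m, hm⟩ := hdone k (.inl ⟨i, a⟩) hk
    obtain ⟨b, h1, h2⟩ := hm hne
    exact ⟨b, inL m h1, h2⟩
  · rintro ⟨h1, h2⟩
    by_cases ht : IsAlgebraic ℚ (x : M)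
    · by_contra hcon
      have hz : (x : M) ∈ Zs M M0 := ⟨ht, fun ⟨m, hm, e⟩ => hcon ⟨m, hm, Subtype.ext e.symm⟩⟩
      obtain ⟨ξ, h3, h4⟩ := (Yp_sub _ _ _).1 h2
      obtain ⟨l, -, hξ⟩ := fin ξ h3 0
      obtain ⟨a1, a2, a3, a4⟩ := (f l).cE x (Or.inr hz)
      obtain ⟨b1, b2, -⟩ := (f l).zs x hz
      have hh := (f l).hom x (Or.inr hz)
      apply (tg x).obstruct (fun i => (f l).maps x (Or.inr hz) _ (hξ i)) (one_mem _) one_ne_zero hn
      rw [← a3, ← hh.nm a1 hξ, b1, one_pow, mul_one, ← a4, b2]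
      exact congrArg _ (congrArg _ h4)
    · exfalso
      obtain ⟨k0, hk0⟩ := (hL x).1 x.2
      obtain ⟨k, hk⟩ := hdone k0 (.inr (.inl x)) ⟨hk0, ht⟩
      obtain ⟨a1, a2, -, -⟩ := (f k).cE x (Or.inl hk)
      have hval : Valid n (⟨_, inL k a1⟩ : L) ⟨_, inL k a2⟩ := by
        constructor
        · rw [Xp_sub]
          apply complete k x hk k le_rfl _ (zero_mem _)
          rw [((f k).hom x (Or.inl hk)).zero]
          simp
        · intro y hy
          rw [Xp_sub] at hy ⊢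
          obtain ⟨l, hkl, hyl, hv⟩ := sound k x hk y y.2 hy
          apply complete k x hk l hkl _ (add_mem hyl (one_mem _))
          have hh := (f l).hom x (Or.inl ((hf _ _ hkl).2.1 hk))
          rw [hh.add _ hyl _ (one_mem _), hh.one]
          exact (tg x).succ_lt hv
      have h3 := (Xp_sub _ _ _).1 (h1 _ _ hval)
      obtain ⟨l, hkl, -, hv⟩ := sound k x hk x x.2 h3
      exact lt_asymm hv ((f l).aE x ((hf _ _ hkl).2.1 hk)).2.1
  · rintro ⟨m, hm, rfl⟩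
    constructor
    · intro c d hv
      clear hm
      induction m with
      | zero => simpa using hv.1
      | succ m ih => simpa using hv.2 _ ih
    · rw [Yp_sub]
      obtain ⟨k, ξ, h1, h2⟩ := hdone 0 (.inr (.inr (.inr m))) hm
      exact ⟨ξ, fun i => inL k (h1 i), by simpa using h2⟩

theorem build (hq : (n + 1).Prime) (hM : ¬ (univ : Set M).Countable)
    (M0 : Set ℕ) (h0 : 0 ∈ M0) {B : Set M} (hB : B.Countable) {I : Type} [Countable I]
    (ar : I → ℕ) (D : ∀ i, (Fin (ar i) → M) → Set M)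
    (hD : ∀ i a, (D i a).Countable → (D i a).Nonempty → ∃ b ∈ D i a, ∃ p : M[X], p ≠ 0 ∧
      p.natDegree < n + 1 ∧ (∀ k, p.coeff k ∈ Subfield.closure (B ∪ range a)) ∧ p.eval b = 0) :
    ∃ L : Subfield M, (∀ i a, (∀ k, a k ∈ L) → (D i a).Nonempty → ∃ b ∈ L, b ∈ D i a) ∧
      ∃ c0 ε : L, ∀ x : L, Up n c0 ε x ↔ ∃ m ∈ M0, x = m := by
  have : ∃ a0 : M, Transcendental ℚ a0 := by
    by_contra h
    push Not at h
    exact hM ((Algebraic.countable ℚ M).mono fun a _ => by simpa [Transcendental] using h a)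
  obtain ⟨a0, ha0⟩ := this
  have tg : ∀ a : M, Nonempty (Tgt n ((cst (AlgebraicClosure M)).comp
      (algebraMap M (AlgebraicClosure M))) a) := by
    intro a
    by_cases ha : Transcendental ℚ a
    · exact exists_tgt hq a ha
    · obtain ⟨T⟩ := exists_tgt hq a0 ha0
      exact ⟨⟨T.toTarget, T.k1, T.k2, T.k3, T.k4, fun h => absurd h ha⟩⟩
  exact build_aux (by have := hq.two_le; omega) hM (fun a => (tg a).some) M0 h0 hB ar D hD

end Pool.Agent.MP_b4c6b8_lc.H74
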