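import Mathlib

/-! Definitions used in the statement. -/

namespace Pool.Agent.MP_b4c6b8_lc.H74

open FirstOrder FirstOrder.Language

/-- Goedel number of a term of the language of rings. -/
def termCode {n : ℕ} : Language.ring.Term (Empty ⊕ Fin n) → ℕ
  | .var (Sum.inl e) => e.elim
  | .var (Sum.inr i) => Nat.pair 0 i.val
  | .func ringFunc.zero _ => Nat.pair 1 0
  | .func ringFunc.one _ => Nat.pair 2 0
  | .func ringFunc.neg ts => Nat.pair 3 (termCode (ts 0))
  | .func ringFunc.add ts => Nat.pair 4 (Nat.pair (termCode (ts 0)) (termCode (ts 1)))
  | .func ringFunc.mul ts => Nat.pair 5 (Nat.pair (termCode (ts 0)) (termCode (ts 1)))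

/-- Goedel number of a formula of the language of rings. -/
def code : {n : ℕ} → Language.ring.BoundedFormula Empty n → ℕ
  | _, .falsum => Nat.pair 0 0
  | _, .equal t u => Nat.pair 1 (Nat.pair (termCode t) (termCode u))
  | _, .rel R _ => Empty.elim R
  | _, .imp φ ψ => Nat.pair 2 (Nat.pair (code φ) (code ψ))
  | _, .all φ => Nat.pair 3 (code φ)

theorem termCode_injective {n : ℕ} : Function.Injective (termCode (n := n)) := by
  intro t
  induction t with
  | var a =>
    rcases a with e | i
    · exact e.elim
    · rintro ((e | j) | ⟨f, us⟩) h
      · exact e.elim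
      · simp only [termCode, Nat.pair_eq_pair] at h
        rw [Fin.ext h.2]
      · cases f <;> simp [termCode, Nat.pair_eq_pair] at h
  | func f ts ih =>
    rintro ((e | j) | ⟨g, us⟩) h
    · exact e.elim
    · cases f <;> simp [termCode, Nat.pair_eq_pair] at h
    · cases f <;> cases g <;> simp only [termCode, Nat.pair_eq_pair] at h <;> try omega
      · congr 1
        funext i
        fin_cases i
        · exact ih 0 h.2.1
        · exact ih 1 h.2.2
      · congr 1
        funext i
        fin_cases i
        · exact ih 0 h.2.1
        · exact ih 1 h.2.2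
      · congr 1
        funext i
        fin_cases i
        exact ih 0 h.2
      · congr 1
        funext i
        exact i.elim0
      · congr 1
        funext i
        exact i.elim0

/-- The numbering of formulas is injective. -/
theorem code_injective {n : ℕ} : Function.Injective (code (n := n)) := by
  intro φ
  induction φ with
  | falsum =>
    intro ψ h
    cases ψ with
    | rel R _ => exact R.elim
    | _ => simp_all [code]
  | equal t u =>
    intro ψ h
    cases ψ with
    | rel R _ => exact R.elim
    | equal t' u' =>
      simp only [code, Nat.pair_eq_pair] at h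
      rw [termCode_injective h.2.1, termCode_injective h.2.2]
    | _ => simp [code] at h
  | rel R ts => exact R.elim
  | imp φ₁ φ₂ ih1 ih2 =>
    intro ψ h
    cases ψ with
    | rel R _ => exact R.elim
    | imp a b =>
      simp only [code, Nat.pair_eq_pair] at h
      rw [ih1 h.2.1, ih2 h.2.2]
    | _ => simp [code] at h
  | all φ ih =>
    intro ψ h
    cases ψ with
    | rel R _ => exact R.elim
    | all a =>
      simp only [code, Nat.pair_eq_pair] at h
      rw [ih h.2]
    | _ => simp [code] at h

/-- Algebraically bounded fields (van den Dries): for each formula `θ(x₁..xₙ, y)` there are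
finitely many polynomials `f(x₁..xₙ, y)` over `K` such that every finite fibre `θ(a, K)` lies in
the zero set of one of the polynomials `f(a, y)`, this polynomial being nonzero. -/
def AlgBounded (K : Type) [Field K] [Language.ring.Structure K] : Prop :=
  ∀ (n : ℕ) (θ : Language.ring.BoundedFormula Empty (n + 1)),
    ∃ S : Finset (Polynomial (MvPolynomial (Fin n) K)), ∀ a : Fin n → K,
      {b : K | θ.Realize Empty.elim (Fin.snoc a b)}.Finite →
        ∃ f ∈ S, f.map (MvPolynomial.eval a) ≠ 0 ∧
          ∀ b : K, θ.Realize Empty.elim (Fin.snoc a b) → (f.map (MvPolynomial.eval a)).eval b = 0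

end Pool.Agent.MP_b4c6b8_lc.H74
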