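import Mathlib

/-! A finite system of Horn rules generating the graph of a partial recursive function. -/

namespace Pool.Agent.MP_b4c6b8_lc.H74

open Nat.Partrec (Code)

/-- Arithmetic expressions. -/
inductive Ex
  | v : Fin 8 → Ex
  | c : ℕ → Ex
  | add : Ex → Ex → Ex
  | mul : Ex → Ex → Ex

/-- Evaluation. -/
def Ex.ev {R : Type} [Semiring R] (x : Fin 8 → R) : Ex → R
  | .v i => x i
  | .c k => k
  | .add a b => a.ev x + b.ev x
  | .mul a b => a.ev x * b.ev x

theorem Ex.ev_cast {R : Type} [Semiring R] (x : Fin 8 → ℕ) (e : Ex) :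
    e.ev (fun i => (x i : R)) = (e.ev x : ℕ) := by
  induction e with
  | v i => rfl
  | c k => rfl
  | add a b iha ihb => simp [ev, iha, ihb]
  | mul a b iha ihb => simp [ev, iha, ihb]

/-- Pairing polynomial. -/
def pr (a b : ℕ) : ℕ := (a + b) * (a + b) + b

theorem pr_inj {a b a' b' : ℕ} (h : pr a b = pr a' b') : a = a' ∧ b = b' := by
  unfold pr at h
  have : a + b = a' + b' := by
    rcases lt_trichotomy (a + b) (a' + b') with h1 | h1 | h1
    · nlinarith
    · exact h1
    · nlinarith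
  rw [this] at h
  omega

/-- Number of a fact. -/
def fact (k x y z : ℕ) : ℕ := 2 * pr k (pr x (pr y z)) + 1

/-- Pairing expression. -/
def Ex.pr (a b : Ex) : Ex := .add (.mul (.add a b) (.add a b)) b

/-- Fact expression. -/
def Ex.fact (k : ℕ) (x y z : Ex) : Ex := .add (.mul (.c 2) (.pr (.c k) (.pr x (.pr y z)))) (.c 1)

@[simp] theorem Ex.ev_fact (w : Fin 8 → ℕ) (k : ℕ) (x y z : Ex) :
    (Ex.fact k x y z).ev w = H74.fact k (x.ev w) (y.ev w) (z.ev w) := rfl

/-- True facts. -/
def TF : ℕ → ℕ → ℕ → ℕ → Prop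
  | 0, x, y, _ => x < y
  | 1, x, y, z => z = Nat.pair x y
  | k + 2, x, y, _ => y ∈ (Denumerable.ofNat Code k).eval x

/-- The coded set. -/
def M0 : Set ℕ := {m | (∃ k, m = 2 * k) ∨ ∃ k x y z, TF k x y z ∧ m = fact k x y z}

theorem fact_mem {k x y z : ℕ} : fact k x y z ∈ M0 ↔ TF k x y z := by
  constructor
  · rintro (⟨j, h⟩ | ⟨k', x', y', z', h, e⟩)
    · unfold fact at h; omega
    · unfold fact at e
      have e1 : pr k (pr x (pr y z)) = pr k' (pr x' (pr y' z')) := by omega
      obtain ⟨rfl, e2⟩ := pr_inj e1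
      obtain ⟨rfl, e3⟩ := pr_inj e2
      obtain ⟨rfl, rfl⟩ := pr_inj e3
      exact h
  · exact fun h => Or.inr ⟨k, x, y, z, h, rfl⟩

/-- Order fact. -/
def eL (a b : Ex) : Ex := .fact 0 a b (.c 0)
/-- Pairing fact. -/
def eP (a b c : Ex) : Ex := .fact 1 a b c
/-- Evaluation fact. -/
def eE (c : Code) (a b : Ex) : Ex := .fact (Encodable.encode c + 2) a b (.c 0)
/-- Successor. -/
def eS (a : Ex) : Ex := .add a (.c 1)

/-- Basic rules. -/
def base : List (List Ex × Ex) :=
  [([], eL (.v 0) (eS (.v 0))), ([eL (.v 0) (.v 1)], eL (.v 0) (eS (.v 1))),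
    ([eL (.v 0) (.v 1)], eP (.v 0) (.v 1) (.add (.mul (.v 1) (.v 1)) (.v 0))),
    ([eL (.v 1) (eS (.v 0))], eP (.v 0) (.v 1) (.add (.add (.mul (.v 0) (.v 0)) (.v 0)) (.v 1)))]

/-- Rules for a code. -/
def rules : Code → List (List Ex × Ex)
  | .zero => [([], eE .zero (.v 0) (.c 0))]
  | .succ => [([], eE .succ (.v 0) (eS (.v 0)))]
  | .left => [([eP (.v 0) (.v 1) (.v 2)], eE .left (.v 2) (.v 0))]
  | .right => [([eP (.v 0) (.v 1) (.v 2)], eE .right (.v 2) (.v 1))]
  | .pair f g => ([eE f (.v 0) (.v 1), eE g (.v 0) (.v 2), eP (.v 1) (.v 2) (.v 3)],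
      eE (.pair f g) (.v 0) (.v 3)) :: (rules f ++ rules g)
  | .comp f g => ([eE g (.v 0) (.v 1), eE f (.v 1) (.v 2)], eE (.comp f g) (.v 0) (.v 2)) ::
      (rules f ++ rules g)
  | .prec f g => ([eE f (.v 0) (.v 1), eP (.v 0) (.c 0) (.v 2)], eE (.prec f g) (.v 2) (.v 1)) ::
      ([eP (.v 0) (.v 1) (.v 4), eE (.prec f g) (.v 4) (.v 2), eP (.v 1) (.v 2) (.v 5),
        eP (.v 0) (.v 5) (.v 6), eE g (.v 6) (.v 3), eP (.v 0) (eS (.v 1)) (.v 7)],
        eE (.prec f g) (.v 7) (.v 3)) :: (rules f ++ rules g)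
  | .rfind' f => ([eP (.v 0) (.v 1) (.v 2), eE f (.v 2) (.c 0)], eE (.rfind' f) (.v 2) (.v 1)) ::
      ([eP (.v 0) (.v 1) (.v 2), eE f (.v 2) (eS (.v 3)), eP (.v 0) (eS (.v 1)) (.v 4),
        eE (.rfind' f) (.v 4) (.v 5)], eE (.rfind' f) (.v 2) (.v 5)) :: rules f

/-- Closure of a set of naturals under rules. -/
def ClN (rs : List (List Ex × Ex)) (U : ℕ → Prop) : Prop :=
  ∀ r ∈ rs, ∀ w : Fin 8 → ℕ, (∀ p ∈ r.1, U (p.ev w)) → U (r.2.ev w)

theorem mem_rfind' (f : Code) (a m x : ℕ) : x ∈ (Code.rfind' f).eval (Nat.pair a m) ↔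
    ∃ k, x = k + m ∧ 0 ∈ f.eval (Nat.pair a (k + m)) ∧
      ∀ j < k, ∃ y, y + 1 ∈ f.eval (Nat.pair a (j + m)) := by
  simp only [Code.eval, Nat.unpaired, Nat.unpair_pair, Part.mem_map_iff, Nat.mem_rfind,
    Part.map_eq_map]
  constructor
  · rintro ⟨k, ⟨⟨y, hy, h0⟩, h1⟩, rfl⟩
    refine ⟨k, rfl, ?_, fun j hj => ?_⟩
    · have : y = 0 := by simpa using h0
      exact this ▸ hy
    · obtain ⟨y, hy, h0⟩ := h1 hj
      have : y ≠ 0 := by simpa using h0
      obtain ⟨y, rfl⟩ := Nat.exists_eq_succ_of_ne_zero this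
      exact ⟨y, hy⟩
  · rintro ⟨k, rfl, h0, h1⟩
    refine ⟨k, ⟨⟨0, h0, by simp⟩, fun {j} hj => ?_⟩, rfl⟩
    obtain ⟨y, hy⟩ := h1 j hj
    exact ⟨y + 1, hy, by simp⟩

theorem base_sound : ClN base (· ∈ M0) := by
  intro r hr w
  simp only [base, List.mem_cons, List.not_mem_nil, or_false] at hr
  rcases hr with rfl | rfl | rfl | rfl <;>
    simp only [List.mem_cons, List.not_mem_nil, or_false, forall_eq, eL, eP, eS, Ex.ev_fact,
      fact_mem, TF, Ex.ev, Nat.cast_id]
  · simp
  · omega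
  · intro h; simp [Nat.pair, h]
  · intro h; rw [Nat.pair, if_neg (by omega)]

theorem rules_sound (c : Code) : ClN (rules c) (· ∈ M0) := by
  induction c with
  | zero | succ | left | right =>
    intro r hr w
    simp only [rules, List.mem_cons, List.not_mem_nil, or_false] at hr
    subst hr
    simp only [List.mem_cons, List.not_mem_nil, or_false, forall_eq, eE, eP, eS, Ex.ev_fact,
      fact_mem, TF, Ex.ev, Nat.cast_id, Denumerable.ofNat_encode]
    intro h
    first | exact Part.mem_some 0 | simp [Code.eval, h]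
  | pair f g ihf ihg | comp f g ihf ihg =>
    intro r hr w
    simp only [rules, List.mem_cons, List.mem_append] at hr
    rcases hr with rfl | hr | hr
    · simp only [List.mem_cons, List.not_mem_nil, or_false, forall_eq_or_imp, forall_eq, eE, eP,
        Ex.ev_fact, fact_mem, TF, Ex.ev, Denumerable.ofNat_encode]
      intro h
      simp only [Code.eval, Seq.seq, Part.bind_eq_bind, Part.mem_bind_iff, Part.map_eq_map,
        Part.mem_map_iff]
      first
        | exact ⟨_, h.1, h.2⟩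
        | exact ⟨_, ⟨_, h.1, rfl⟩, _, h.2.1, h.2.2.symm⟩
    · exact ihf r hr w
    · exact ihg r hr w
  | prec f g ihf ihg =>
    intro r hr w
    simp only [rules, List.mem_cons, List.mem_append] at hr
    rcases hr with rfl | rfl | hr | hr
    · simp only [List.mem_cons, List.not_mem_nil, or_false, forall_eq_or_imp, forall_eq, eE, eP,
        Ex.ev_fact, fact_mem, TF, Ex.ev, Denumerable.ofNat_encode, Nat.cast_id]
      rintro ⟨h1, h2⟩
      rw [h2, Code.eval_prec_zero]
      exact h1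
    · simp only [List.mem_cons, List.not_mem_nil, or_false, forall_eq_or_imp, forall_eq, eE, eP, eS,
        Ex.ev_fact, fact_mem, TF, Ex.ev, Denumerable.ofNat_encode, Nat.cast_id]
      rintro ⟨h1, h2, h3, h4, h5, h6⟩
      rw [h6, ← Nat.succ_eq_add_one, Code.eval_prec_succ]
      simp only [Part.bind_eq_bind, Part.mem_bind_iff]
      exact ⟨_, h1 ▸ h2, by rw [← h3, ← h4]; exact h5⟩
    · exact ihf r hr w
    · exact ihg r hr w
  | rfind' f ihf =>
    intro r hr w
    simp only [rules, List.mem_cons] at hr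
    rcases hr with rfl | rfl | hr
    · simp only [List.mem_cons, List.not_mem_nil, or_false, forall_eq_or_imp, forall_eq, eE, eP,
        Ex.ev_fact, fact_mem, TF, Ex.ev, Denumerable.ofNat_encode, Nat.cast_id]
      rintro ⟨h1, h2⟩
      rw [h1, mem_rfind']
      exact ⟨0, by simp, by simpa [h1] using h2, by simp⟩
    · simp only [List.mem_cons, List.not_mem_nil, or_false, forall_eq_or_imp, forall_eq, eE, eP, eS,
        Ex.ev_fact, fact_mem, TF, Ex.ev, Denumerable.ofNat_encode, Nat.cast_id]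
      rintro ⟨h1, h2, h3, h4⟩
      rw [h3, mem_rfind'] at h4
      obtain ⟨k, e, h5, h6⟩ := h4
      rw [h1, mem_rfind']
      refine ⟨k + 1, by omega, by rwa [show k + 1 + w 1 = k + (w 1 + 1) by omega], fun j hj => ?_⟩
      rcases j with _ | j
      · exact ⟨w 3, by simpa [h1] using h2⟩
      · rw [show j + 1 + w 1 = j + (w 1 + 1) by omega]
        exact h6 j (by omega)
    · exact ihf r hr w

theorem base_complete {U : ℕ → Prop} (h : ClN base U) (a b : ℕ) :
    U (fact 1 a b (Nat.pair a b)) := by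
  have hl : ∀ a b, a < b → U (fact 0 a b 0) := by
    intro a b hab
    induction hab with
    | refl => exact h _ (by simp [base]; exact Or.inl rfl) (fun _ => a) (by simp)
    | @step m _ ih =>
      exact h ([eL (.v 0) (.v 1)], eL (.v 0) (eS (.v 1))) (by simp [base]) ![a, m, 0, 0, 0, 0, 0, 0]
        (by simpa [eL, Ex.ev] using ih)
  rw [Nat.pair]
  split_ifs with hab
  · exact h ([eL (.v 0) (.v 1)], eP (.v 0) (.v 1) (.add (.mul (.v 1) (.v 1)) (.v 0)))
      (by simp [base]) ![a, b, 0, 0, 0, 0, 0, 0] (by simpa [eL, Ex.ev] using hl a b hab)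
  · exact h ([eL (.v 1) (eS (.v 0))], eP (.v 0) (.v 1)
      (.add (.add (.mul (.v 0) (.v 0)) (.v 0)) (.v 1)))
      (by simp [base]) ![a, b, 0, 0, 0, 0, 0, 0]
      (by simpa [eL, eS, Ex.ev] using hl b (a + 1) (by omega))

theorem rules_complete {U : ℕ → Prop} (hb : ClN base U) (c : Code) (h : ClN (rules c) U) :
    ∀ x y, y ∈ c.eval x → U (fact (Encodable.encode c + 2) x y 0) := by
  have hp := base_complete hb
  induction c with
  | zero =>
    intro x y hy
    obtain rfl : y = 0 := Part.mem_some_iff.1 hy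
    exact h _ List.mem_cons_self (fun _ => x) (by simp)
  | succ =>
    intro x y hy
    obtain rfl : y = x + 1 := by simpa [Code.eval] using hy
    exact h _ List.mem_cons_self (fun _ => x) (by simp)
  | left =>
    intro x y hy
    obtain rfl : y = x.unpair.1 := by simpa [Code.eval] using hy
    exact h _ List.mem_cons_self ![x.unpair.1, x.unpair.2, x, 0, 0, 0, 0, 0]
      (by simpa [eP, Ex.ev] using hp x.unpair.1 x.unpair.2)
  | right =>
    intro x y hy
    obtain rfl : y = x.unpair.2 := by simpa [Code.eval] using hy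
    exact h _ List.mem_cons_self ![x.unpair.1, x.unpair.2, x, 0, 0, 0, 0, 0]
      (by simpa [eP, Ex.ev] using hp x.unpair.1 x.unpair.2)
  | pair f g ihf ihg =>
    have hf := ihf fun r hr => h r (by simp [rules, hr])
    have hg := ihg fun r hr => h r (by simp [rules, hr])
    intro x y hy
    simp only [Code.eval, Seq.seq, Part.bind_eq_bind, Part.mem_bind_iff, Part.map_eq_map,
      Part.mem_map_iff] at hy
    obtain ⟨_, ⟨a, ha, rfl⟩, b, hb, rfl⟩ := hy
    exact h _ List.mem_cons_self ![x, a, b, Nat.pair a b, 0, 0, 0, 0]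
      (by simpa [eP, eE, Ex.ev] using ⟨hf _ _ ha, hg _ _ hb, hp a b⟩)
  | comp f g ihf ihg =>
    have hf := ihf fun r hr => h r (by simp [rules, hr])
    have hg := ihg fun r hr => h r (by simp [rules, hr])
    intro x y hy
    simp only [Code.eval, Part.bind_eq_bind, Part.mem_bind_iff] at hy
    obtain ⟨a, ha, hb⟩ := hy
    exact h _ List.mem_cons_self ![x, a, y, 0, 0, 0, 0, 0]
      (by simpa [eP, eE, Ex.ev] using ⟨hg _ _ ha, hf _ _ hb⟩)
  | prec f g ihf ihg =>
    have hf := ihf fun r hr => h r (by simp [rules, hr])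
    have hg := ihg fun r hr => h r (by simp [rules, hr])
    have key : ∀ a k y, y ∈ (Code.prec f g).eval (Nat.pair a k) →
        U (fact (Encodable.encode (Code.prec f g) + 2) (Nat.pair a k) y 0) := by
      intro a k
      induction k with
      | zero =>
        intro y hy
        rw [Code.eval_prec_zero] at hy
        exact h _ List.mem_cons_self ![a, y, Nat.pair a 0, 0, 0, 0, 0, 0]
          (by simpa [eP, eE, Ex.ev] using ⟨hf _ _ hy, hp a 0⟩)
      | succ k ih =>
        intro y hy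
        rw [← Nat.succ_eq_add_one, Code.eval_prec_succ] at hy
        simp only [Part.bind_eq_bind, Part.mem_bind_iff] at hy
        obtain ⟨i, hi, hy⟩ := hy
        exact h _ (List.mem_cons_of_mem _ List.mem_cons_self) ![a, k, i, y, Nat.pair a k,
          Nat.pair k i, Nat.pair a (Nat.pair k i), Nat.pair a (k + 1)]
          (by simpa [eP, eE, eS, Ex.ev] using
            ⟨hp a k, ih _ hi, hp k i, hp a _, hg _ _ hy, hp a (k + 1)⟩)
    intro x y hy
    rw [← Nat.pair_unpair x] at hy ⊢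
    exact key _ _ _ hy
  | rfind' f ihf =>
    have hf := ihf fun r hr => h r (by simp [rules, hr])
    have key : ∀ a k m, 0 ∈ f.eval (Nat.pair a (k + m)) →
        (∀ j < k, ∃ y, y + 1 ∈ f.eval (Nat.pair a (j + m))) →
        U (fact (Encodable.encode (Code.rfind' f) + 2) (Nat.pair a m) (k + m) 0) := by
      intro a k
      induction k with
      | zero =>
        intro m h0 _
        rw [zero_add] at h0 ⊢
        exact h _ List.mem_cons_self ![a, m, Nat.pair a m, 0, 0, 0, 0, 0]
          (by simpa [eP, eE, Ex.ev] using ⟨hp a m, hf _ _ h0⟩)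
      | succ k ih =>
        intro m h0 h1
        obtain ⟨y, hy⟩ := h1 0 (by omega)
        rw [zero_add] at hy
        have := ih (m + 1) (by rwa [show k + (m + 1) = k + 1 + m by omega]) (fun j hj => by
          rw [show j + (m + 1) = j + 1 + m by omega]
          exact h1 (j + 1) (by omega))
        rw [show k + (m + 1) = k + 1 + m by omega] at this
        exact h _ (List.mem_cons_of_mem _ List.mem_cons_self) ![a, m, Nat.pair a m, y,
          Nat.pair a (m + 1), k + 1 + m, 0, 0]
          (by simpa [eP, eE, eS, Ex.ev] using ⟨hp a m, hf _ _ hy, hp a (m + 1), this⟩)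
    intro x y hy
    rw [← Nat.pair_unpair x] at hy ⊢
    obtain ⟨k, rfl, h0, h1⟩ := (mem_rfind' _ _ _ _).1 hy
    exact key _ _ _ h0 h1

section Field
variable {F : Type} [Field F]

/-- Closure of a subset of a field under rules. -/
def ClF (rs : List (List Ex × Ex)) (U : F → Prop) : Prop :=
  U 0 ∧ (∀ x, U x ∨ U (x - 1) → U (x + x)) ∧
    ∀ r ∈ rs, ∀ w : Fin 8 → F, (∀ i, U (w i) ∨ U (w i - 1)) → (∀ p ∈ r.1, U (p.ev w)) →
      U (r.2.ev w)

theorem ClF.toN {rs : List (List Ex × Ex)} {U : F → Prop} (h : ClF rs U) :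
    ClN rs fun m => U m := by
  have h1 : ∀ m : ℕ, U m ∨ U (m - 1) := by
    intro m
    induction m using Nat.strong_induction_on with
    | _ m ih =>
      rcases Nat.even_or_odd' m with ⟨k, rfl | rfl⟩
      · left
        rcases Nat.eq_zero_or_pos k with rfl | hk
        · simpa using h.1
        · have := h.2.1 _ (ih k (by omega))
          rwa [Nat.cast_mul, Nat.cast_two, two_mul]
      · right
        have := h.2.1 _ (ih k (by omega))
        rwa [Nat.cast_succ, add_sub_cancel_right, Nat.cast_mul, Nat.cast_two, two_mul]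
  intro r hr w hw
  have := h.2.2 r hr (fun i => w i) (fun i => h1 _) (fun p hp => by
    rw [Ex.ev_cast]; exact hw p hp)
  rwa [Ex.ev_cast] at this

theorem ClF.ofN [CharZero F] {rs : List (List Ex × Ex)} (h : ClN rs (· ∈ M0)) {U : F → Prop}
    (hU : ∀ x, U x ↔ ∃ m ∈ M0, x = m) : ClF rs U := by
  have h1 : ∀ x, U x ∨ U (x - 1) → ∃ m : ℕ, x = m := by
    rintro x (hx | hx)
    · obtain ⟨m, -, e⟩ := (hU _).1 hx
      exact ⟨m, e⟩
    · obtain ⟨m, -, e⟩ := (hU _).1 hx
      exact ⟨m + 1, by rw [Nat.cast_succ, ← e, sub_add_cancel]⟩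
  refine ⟨(hU _).2 ⟨0, Or.inl ⟨0, rfl⟩, by simp⟩, fun x hx => ?_, fun r hr w hw hp => ?_⟩
  · obtain ⟨m, rfl⟩ := h1 x hx
    exact (hU _).2 ⟨2 * m, Or.inl ⟨m, rfl⟩, by push_cast; ring⟩
  · choose w' hw' using fun i => h1 _ (hw i)
    obtain rfl : w = fun i => (w' i : F) := funext hw'
    rw [Ex.ev_cast]
    refine (hU _).2 ⟨_, h r hr w' fun p hp' => ?_, rfl⟩
    obtain ⟨m, hm, e⟩ := (hU _).1 (hp p hp')
    rw [Ex.ev_cast, Nat.cast_inj] at e
    exact e ▸ hm

end Field

theorem exists_code : ∃ c : Code, ¬ ComputablePred fun k : ℕ => 0 ∈ c.eval k := by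
  have h : Partrec fun k : ℕ => ((Denumerable.ofNat Code k).eval 0).map fun _ => 0 :=
    (Code.eval_part.comp (Computable.ofNat Code) (Computable.const 0)).map
      (Computable.const 0).to₂
  obtain ⟨c, hc⟩ := Code.exists_code.1 (Partrec.nat_iff.1 h)
  refine ⟨c, fun hp => ComputablePred.halting_problem 0 ?_⟩
  obtain ⟨f, hf, e⟩ := ComputablePred.computable_iff.1 hp
  refine ComputablePred.computable_iff.2 ⟨fun d => f (Encodable.encode d),
    hf.comp Computable.encode, funext fun d => ?_⟩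
  have := congrFun e (Encodable.encode d)
  rw [← this, hc]
  simp [Part.dom_iff_mem]

end Pool.Agent.MP_b4c6b8_lc.H74
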