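import Mathlib

/-! Independence lemmas and extension of embeddings. -/

namespace Pool.Agent.MP_b4c6b8_lc.H74

open Polynomial Set

section Ind
variable {R : Type} [Field R]

/-- Subfield generated by `E` and `s`. -/
noncomputable def adj (E : Subfield R) (s : Set R) : Subfield R :=
  (IntermediateField.adjoin E s).toSubfield

theorem le_adj (E : Subfield R) (s : Set R) : E ≤ adj E s := fun x hx =>
  (IntermediateField.adjoin E s).algebraMap_mem ⟨x, hx⟩

theorem sub_adj (E : Subfield R) (s : Set R) : s ⊆ adj E s :=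
  IntermediateField.subset_adjoin E s

theorem adj_eq (E : Subfield R) (s : Set R) : adj E s = Subfield.closure (E ∪ s) := by
  rw [adj, IntermediateField.adjoin_toSubfield]
  congr 2
  ext x
  exact ⟨fun ⟨y, hy⟩ => hy ▸ y.2, fun h => ⟨⟨x, h⟩, rfl⟩⟩

theorem adj_le {E H : Subfield R} {s : Set R} (h1 : E ≤ H) (h2 : s ⊆ H) : adj E s ≤ H := by
  rw [adj_eq, Subfield.closure_le]
  exact union_subset h1 h2

theorem countable_closure {s : Set R} (hs : s.Countable) :
    ((Subfield.closure s : Subfield R) : Set R).Countable := by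
  rw [← Cardinal.le_aleph0_iff_set_countable] at hs ⊢
  exact (Subfield.cardinalMk_closure_le_max s).trans (max_le hs le_rfl)

theorem countable_adj {E : Subfield R} {s : Set R} (hE : (E : Set R).Countable) (hs : s.Countable) :
    (adj E s : Set R).Countable := by
  rw [adj_eq]; exact countable_closure (hE.union hs)

theorem exists_trans {A : Set R} (hA : ¬ A.Countable) {S : Subfield R}
    (hS : (S : Set R).Countable) : ∃ a ∈ A, Transcendental S a := by
  by_contra h
  push Not at h
  haveI : Countable S := hS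
  exact hA ((Algebraic.countable S R).mono fun a ha => by
    have := h a ha
    simpa [Transcendental] using this)

theorem exists_indep {A : Set R} (hA : ¬ A.Countable) {S : Subfield R}
    (hS : (S : Set R).Countable) (n : ℕ) :
    ∃ r : Fin n → R, (∀ i, r i ∈ A) ∧ AlgebraicIndependent S r := by
  induction n with
  | zero => exact ⟨Fin.elim0, fun i => i.elim0, algebraicIndependent_empty_type⟩
  | succ n ih =>
    obtain ⟨r, hr, hi⟩ := ih
    obtain ⟨a, ha, ht⟩ := exists_trans hA (countable_adj hS (countable_range r))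
    have ht' : Transcendental (Algebra.adjoin S (range r)) a :=
      IntermediateField.transcendental_adjoin_iff.1 ht
    have := AlgebraicIndependent.option_iff.2 ⟨hi, ht'⟩
    refine ⟨(fun o : Option (Fin n) => o.elim a r) ∘ finSuccEquiv n, ?_,
      (algebraicIndependent_equiv _).2 this⟩
    intro i
    simp only [Function.comp_apply]
    cases finSuccEquiv n i with
    | none => exact ha
    | some j => exact hr j

/-- Elements algebraic over the field generated by `S` and `s`. -/
noncomputable def acl (S : Subfield R) (s : Set R) : Subfield R :=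
  (algebraicClosure (IntermediateField.adjoin S s) R).toSubfield

theorem mem_acl {S : Subfield R} {s : Set R} {x : R} :
    x ∈ acl S s ↔ IsAlgebraic (IntermediateField.adjoin S s) x := mem_algebraicClosure_iff

theorem acl_eq (S : Subfield R) (s : Set R) :
    (acl S s : Set R) = (AlgebraicIndependent.matroid S R).closure s := by
  ext x
  rw [SetLike.mem_coe, mem_acl, AlgebraicIndependent.matroid_closure_eq,
    IntermediateField.isAlgebraic_adjoin_iff]
  rfl

theorem adj_le_acl (S : Subfield R) (s : Set R) : adj S s ≤ acl S s := fun x hx =>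
  mem_acl.2 (isAlgebraic_algebraMap (⟨x, hx⟩ : IntermediateField.adjoin S s))

theorem acl_mono {S : Subfield R} {s t : Set R} (h : s ⊆ acl S t) : acl S s ≤ acl S t := by
  intro x hx
  rw [← SetLike.mem_coe, acl_eq] at hx ⊢
  rw [acl_eq] at h
  exact Matroid.closure_subset_closure_of_subset_closure h hx

theorem indep_of_acl {S : Subfield R} {n : ℕ} {r x : Fin n → R} (hr : AlgebraicIndependent S r)
    (h : ∀ i, r i ∈ acl S (range x)) : AlgebraicIndependent S x := by
  have h1 : (AlgebraicIndependent.matroid S R).Indep (range r) := hr.to_subtype_range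
  have h2 : range r ⊆ (AlgebraicIndependent.matroid S R).closure (range x) := by
    rw [← acl_eq]; rintro _ ⟨i, rfl⟩; exact h i
  have h3 := h1.encard_le_eRk_of_subset h2
  rw [Matroid.eRk_closure_eq] at h3
  have h4 : (range r).encard = (univ : Set (Fin n)).encard := by
    rw [← image_univ]; exact hr.injective.injOn.encard_image
  have h5 : (range x).encard ≤ (univ : Set (Fin n)).encard := by
    rw [← image_univ]; exact encard_image_le _ _
  have h6 := (AlgebraicIndependent.matroid S R).eRk_le_encard (range x)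
  have h7 : (AlgebraicIndependent.matroid S R).Indep (range x) := by
    rw [Matroid.indep_iff_eRk_eq_encard_of_finite (finite_range x)]
    exact le_antisymm h6 (h5.trans (h4 ▸ h3))
  have h8 : Function.Injective x := by
    rw [← injOn_univ]
    apply finite_univ.injOn_of_encard_image_eq
    rw [image_univ]
    exact le_antisymm h5 ((h4 ▸ h3).trans h6)
  exact (algebraicIndependent_subtype_range h8).1 h7

theorem indep_mono {α : Type} {S S' : Subfield R} (h : S ≤ S') {x : α → R}
    (hx : AlgebraicIndependent S' x) : AlgebraicIndependent S x := by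
  letI := (Subfield.inclusion h).toAlgebra
  haveI : IsScalarTower S S' R := IsScalarTower.of_algebraMap_eq fun _ => rfl
  exact hx.restrictScalars (Subfield.inclusion h).injective

theorem lift_poly {H : Subfield R} (p : R[X]) (hp : ∀ i, p.coeff i ∈ H) :
    ∃ p' : H[X], p'.map H.subtype = p := by
  rw [← mem_lifts, lifts_iff_coeff_lifts]
  intro i
  exact ⟨⟨_, hp i⟩, rfl⟩

theorem alg_of_poly {H : Subfield R} {p : R[X]} (h0 : p ≠ 0) (hp : ∀ i, p.coeff i ∈ H) {b : R}
    (hb : p.eval b = 0) : IsAlgebraic H b := by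
  obtain ⟨p', rfl⟩ := lift_poly p hp
  refine ⟨p', by rintro rfl; simp at h0, ?_⟩
  rwa [aeval_def, ← eval_map]

end Ind

section Ext
variable {M R : Type} [Field M] [Field R]

/-- `ι` is a ring homomorphism on the subfield `E`. -/
structure HomOn (E : Subfield M) (ι : M → R) : Prop where
  one : ι 1 = 1
  add : ∀ x ∈ E, ∀ y ∈ E, ι (x + y) = ι x + ι y
  mul : ∀ x ∈ E, ∀ y ∈ E, ι (x * y) = ι x * ι y

namespace HomOn
variable {E : Subfield M} {ι : M → R}

/-- The bundled homomorphism. -/
def hom (h : HomOn E ι) : E →+* R where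
  toFun x := ι x
  map_one' := h.one
  map_mul' x y := h.mul _ x.2 _ y.2
  map_add' x y := h.add _ x.2 _ y.2
  map_zero' := by
    have := h.add 0 E.zero_mem 0 E.zero_mem
    rw [add_zero] at this
    exact left_eq_add.1 this

theorem hom_apply (h : HomOn E ι) (x : E) : h.hom x = ι x := rfl

theorem zero (h : HomOn E ι) : ι 0 = 0 := h.hom.map_zero
theorem neg (h : HomOn E ι) {x : M} (hx : x ∈ E) : ι (-x) = -ι x := h.hom.map_neg ⟨x, hx⟩
theorem inv (h : HomOn E ι) {x : M} (hx : x ∈ E) : ι x⁻¹ = (ι x)⁻¹ := map_inv₀ h.hom ⟨x, hx⟩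
theorem pow (h : HomOn E ι) {x : M} (hx : x ∈ E) (n : ℕ) : ι (x ^ n) = ι x ^ n :=
  h.hom.map_pow ⟨x, hx⟩ n
theorem ne (h : HomOn E ι) {x : M} (hx : x ∈ E) (h0 : x ≠ 0) : ι x ≠ 0 :=
  (map_ne_zero h.hom (a := ⟨x, hx⟩)).2 fun e => h0 (congrArg Subtype.val e)

theorem of_hom (φ : E →+* R) : ∃ ι : M → R, HomOn E ι ∧ ∀ x : E, ι x = φ x := by
  classical
  refine ⟨fun m => if h : m ∈ E then φ ⟨m, h⟩ else 0, ⟨?_, ?_, ?_⟩, ?_⟩
  · rw [dif_pos E.one_mem]; exact φ.map_one
  · intro x hx y hy
    rw [dif_pos hx, dif_pos hy, dif_pos (E.add_mem hx hy), ← map_add]; rfl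
  · intro x hx y hy
    rw [dif_pos hx, dif_pos hy, dif_pos (E.mul_mem hx hy), ← map_mul]; rfl
  · intro x; exact dif_pos x.2

theorem maps_adj {s : Set M} (h : HomOn (adj E s) ι) {H : Subfield R} (h1 : ∀ x ∈ E, ι x ∈ H)
    (h2 : ∀ x ∈ s, ι x ∈ H) : ∀ x ∈ adj E s, ι x ∈ H := by
  have : adj E s ≤ (H.comap h.hom).map (adj E s).subtype := by
    apply adj_le
    · intro x hx; exact ⟨⟨x, le_adj E s hx⟩, h1 x hx, rfl⟩
    · intro x hx; exact ⟨⟨x, sub_adj E s hx⟩, h2 x hx, rfl⟩
  intro x hx
  obtain ⟨y, hy, rfl⟩ := this hx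
  exact hy

theorem ext_indep {α : Type} (h : HomOn E ι) {x : α → M} (hx : AlgebraicIndependent E x)
    {S : Subfield R} (hS : ∀ a ∈ E, ι a ∈ S) {y : α → R} (hy : AlgebraicIndependent S y) :
    ∃ ι' : M → R, HomOn (adj E (range x)) ι' ∧ EqOn ι' ι E ∧ ∀ i, ι' (x i) = y i := by
  letI : Algebra E R := h.hom.toAlgebra
  have hy' : AlgebraicIndependent E y := by
    letI : Algebra E S := (h.hom.codRestrict S fun a => hS a a.2).toAlgebra
    haveI : IsScalarTower E S R := IsScalarTower.of_algebraMap_eq fun _ => rfl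
    exact hy.restrictScalars (algebraMap E S).injective
  let ψ : IntermediateField.adjoin E (range x) →ₐ[E] R :=
    (IsFractionRing.liftAlgHom (K := FractionRing (MvPolynomial α E))
      (algebraicIndependent_iff_injective_aeval.2 hy')).comp hx.reprField
  obtain ⟨ι', h1, h2⟩ := of_hom (E := adj E (range x)) ψ.toRingHom
  refine ⟨ι', h1, ?_, ?_⟩
  · intro a ha
    exact (h2 ⟨a, le_adj E _ ha⟩).trans (ψ.commutes ⟨a, ha⟩)
  · intro i
    refine (h2 ⟨x i, sub_adj E _ ⟨i, rfl⟩⟩).trans ?_
    have e : hx.reprField ⟨x i, sub_adj E _ ⟨i, rfl⟩⟩ =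
        algebraMap (MvPolynomial α E) _ (MvPolynomial.X i) := by
      apply hx.aevalEquivField.injective
      apply Subtype.ext
      rw [hx.aevalEquivField_algebraMap_apply_coe, MvPolynomial.aeval_X]
      exact congrArg Subtype.val (hx.aevalEquivField.apply_symm_apply _)
    refine (congrArg (IsFractionRing.liftAlgHom (K := FractionRing (MvPolynomial α E))
      (algebraicIndependent_iff_injective_aeval.2 hy')) e).trans ?_
    simp

theorem ext_root (h : HomOn E ι) {b : M} (hb : IsIntegral E b) {β : R}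
    (hβ : ((minpoly E b).map h.hom).eval β = 0) :
    ∃ ι' : M → R, HomOn (adj E {b}) ι' ∧ EqOn ι' ι E ∧ ι' b = β := by
  letI : Algebra E R := h.hom.toAlgebra
  have hm : β ∈ (minpoly E b).aroots R := by
    rw [mem_aroots]
    exact ⟨minpoly.ne_zero hb, by rwa [aeval_def, ← eval_map]⟩
  let ψ := (IntermediateField.algHomAdjoinIntegralEquiv E hb).symm ⟨β, hm⟩
  obtain ⟨ι', h1, h2⟩ := of_hom (E := adj E {b}) ψ.toRingHom
  refine ⟨ι', h1, ?_, ?_⟩
  · intro a ha
    exact (h2 ⟨a, le_adj E _ ha⟩).trans (ψ.commutes ⟨a, ha⟩)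
  · exact (h2 ⟨b, sub_adj E _ rfl⟩).trans
      (IntermediateField.algHomAdjoinIntegralEquiv_symm_apply_gen E hb ⟨β, hm⟩)

theorem ext_alg [IsAlgClosed R] (h : HomOn E ι) {q : ℕ} {H : Subfield R}
    (hH : ∀ a ∈ E, ι a ∈ H)
    (small : ∀ p : R[X], p ≠ 0 → p.natDegree < q → (∀ i, p.coeff i ∈ H) →
      ∀ β, p.eval β = 0 → β ∈ H)
    {b : M} (p : E[X]) (hp0 : p ≠ 0) (hb : aeval b p = 0)
    (hp : p.natDegree < q ∨ (p.Monic ∧ p.natDegree = q ∧ ∃ β ∈ H, (p.map h.hom).eval β = 0)) :
    ∃ ι' : M → R, HomOn (adj E {b}) ι' ∧ EqOn ι' ι E ∧ ∀ x ∈ adj E {b}, ι' x ∈ H := by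
  have hi : IsIntegral E b := (show IsAlgebraic E b from ⟨p, hp0, hb⟩).isIntegral
  have hdvd := minpoly.dvd E b hb
  have hle := natDegree_le_of_dvd hdvd hp0
  have key : ∃ β ∈ H, ((minpoly E b).map h.hom).eval β = 0 := by
    by_cases hlt : (minpoly E b).natDegree < q
    · obtain ⟨β, hβ⟩ := IsAlgClosed.exists_root ((minpoly E b).map h.hom) (by
        rw [degree_map]; exact (minpoly.degree_pos hi).ne')
      refine ⟨β, small _ ((Polynomial.map_ne_zero_iff h.hom.injective).2 (minpoly.ne_zero hi))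
        (by rwa [natDegree_map]) (fun i => ?_) β hβ, hβ⟩
      rw [coeff_map]
      exact hH _ (Subtype.prop _)
    · rcases hp with hp | ⟨hm, hd, β, hβ, he⟩
      · omega
      · have : p = minpoly E b :=
          eq_of_monic_of_dvd_of_natDegree_le (minpoly.monic hi) hm hdvd (by omega)
        exact ⟨β, hβ, this ▸ he⟩
  obtain ⟨β, hβ, he⟩ := key
  obtain ⟨ι', h1, h2, h3⟩ := h.ext_root hi he
  refine ⟨ι', h1, h2, h1.maps_adj (fun x hx => h2 hx ▸ hH x hx) ?_⟩
  rintro x rfl
  rwa [h3]

end HomOn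

end Ext

end Pool.Agent.MP_b4c6b8_lc.H74
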