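import Pool.Agent.MP_b4c6b8_lc.H74.Ultra
import Pool.Agent.MP_b4c6b8_lc.H74.Horn

/-! Uniform definability and the main theorem. -/

set_option linter.unusedSectionVars false

namespace Pool.Agent.MP_b4c6b8_lc.H74

open FirstOrder FirstOrder.Language FirstOrder.Ring Set

/-- Functions given by a term, uniformly in all fields. -/
def UT (α : Type) (f : ∀ (F : Type) [Field F], (α → F) → F) : Prop :=
  ∃ t : Language.ring.Term α, ∀ (F : Type) [Field F] [CompatibleRing F] (v : α → F),
    t.realize v = f F v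

/-- Predicates given by a formula, uniformly in all fields. -/
def UD (α : Type) (P : ∀ (F : Type) [Field F], (α → F) → Prop) : Prop :=
  ∃ φ : Language.ring.Formula α, ∀ (F : Type) [Field F] [CompatibleRing F] (v : α → F),
    φ.Realize v ↔ P F v

variable {α β : Type}

attribute [local irreducible] Nm

namespace UT
variable {f g : ∀ (F : Type) [Field F], (α → F) → F}

theorem var (a : α) : UT α fun _ _ v => v a := ⟨.var a, fun _ _ _ _ => rfl⟩
theorem zero : UT α fun _ _ _ => 0 := ⟨0, fun _ _ _ _ => realize_zero _⟩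
theorem one : UT α fun _ _ _ => 1 := ⟨1, fun _ _ _ _ => realize_one _⟩
theorem add (hf : UT α f) (hg : UT α g) : UT α fun F _ v => f F v + g F v := by
  obtain ⟨s, hs⟩ := hf; obtain ⟨t, ht⟩ := hg
  exact ⟨s + t, fun F _ _ v => by rw [realize_add, hs, ht]⟩
theorem mul (hf : UT α f) (hg : UT α g) : UT α fun F _ v => f F v * g F v := by
  obtain ⟨s, hs⟩ := hf; obtain ⟨t, ht⟩ := hg
  exact ⟨s * t, fun F _ _ v => by rw [realize_mul, hs, ht]⟩
theorem neg (hf : UT α f) : UT α fun F _ v => -f F v := by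
  obtain ⟨s, hs⟩ := hf
  exact ⟨-s, fun F _ _ v => by rw [realize_neg, hs]⟩
theorem of_eq (hf : UT α f) (h : ∀ (F : Type) [Field F] v, f F v = g F v) : UT α g := by
  obtain ⟨s, hs⟩ := hf
  exact ⟨s, fun F _ _ v => by rw [hs, h]⟩
theorem sub (hf : UT α f) (hg : UT α g) : UT α fun F _ v => f F v - g F v :=
  (hf.add hg.neg).of_eq fun _ _ _ => (sub_eq_add_neg _ _).symm
theorem nat (k : ℕ) : UT α fun F _ _ => (k : F) := by
  induction k with
  | zero => exact zero.of_eq fun _ _ _ => by simp
  | succ k ih => exact (ih.add one).of_eq fun _ _ _ => by simp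
theorem int (k : ℤ) : UT α fun F _ _ => (k : F) := by
  rcases k with k | k
  · exact (nat k).of_eq fun _ _ _ => by simp
  · exact (nat (k + 1)).neg.of_eq fun _ _ _ => by simp [Int.negSucc_eq]
theorem pow (hf : UT α f) (k : ℕ) : UT α fun F _ v => f F v ^ k := by
  induction k with
  | zero => exact one.of_eq fun _ _ _ => by simp
  | succ k ih => exact (ih.mul hf).of_eq fun _ _ _ => by rw [pow_succ]
theorem poly (p : MvPolynomial α ℤ) : UT α fun F _ v => MvPolynomial.eval₂ (Int.castRingHom F) v p := by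
  induction p using MvPolynomial.induction_on with
  | C a => exact (int a).of_eq fun _ _ _ => by rw [MvPolynomial.eval₂_C]; rfl
  | add p q hp hq => exact (hp.add hq).of_eq fun _ _ _ => by simp
  | mul_X p a hp => exact (hp.mul (var a)).of_eq fun _ _ _ => by simp
theorem subst (hf : UT α f) {s : α → ∀ (F : Type) [Field F], (β → F) → F} (hs : ∀ a, UT β (s a)) :
    UT β fun F _ v => f F fun a => s a F v := by
  obtain ⟨t, ht⟩ := hf
  choose u hu using hs
  exact ⟨t.subst u, fun F _ _ v => by rw [Term.realize_subst, ht]; simp only [hu]⟩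
theorem nm (n : ℕ) : UT (Option (Fin (n + 1))) fun _ _ v => Nm n (v none) fun i => v (some i) :=
  (poly (Nm n (MvPolynomial.X none) fun i => MvPolynomial.X (some i))).of_eq fun F _ v => by
    have := Nm_map (MvPolynomial.eval₂Hom (Int.castRingHom F) v) n (MvPolynomial.X none)
      fun i => MvPolynomial.X (some i)
    simpa using this
theorem ex (e : Ex) : UT (Fin 8) fun _ _ v => e.ev v := by
  induction e with
  | v i => exact var i
  | c k => exact nat k
  | add a b iha ihb => exact iha.add ihb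
  | mul a b iha ihb => exact iha.mul ihb

end UT

namespace UD
variable {P Q : ∀ (F : Type) [Field F], (α → F) → Prop}

theorem eq {f g : ∀ (F : Type) [Field F], (α → F) → F} (hf : UT α f) (hg : UT α g) :
    UD α fun F _ v => f F v = g F v := by
  obtain ⟨s, hs⟩ := hf; obtain ⟨t, ht⟩ := hg
  exact ⟨s.equal t, fun F _ _ v => by rw [Formula.realize_equal, hs, ht]⟩
theorem of_iff (hP : UD α P) (h : ∀ (F : Type) [Field F] v, P F v ↔ Q F v) : UD α Q := by
  obtain ⟨s, hs⟩ := hP
  exact ⟨s, fun F _ _ v => by rw [hs, h]⟩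
theorem top : UD α fun _ _ _ => True := ⟨⊤, fun _ _ _ _ => by simp⟩
theorem and (hP : UD α P) (hQ : UD α Q) : UD α fun F _ v => P F v ∧ Q F v := by
  obtain ⟨s, hs⟩ := hP; obtain ⟨t, ht⟩ := hQ
  exact ⟨s ⊓ t, fun F _ _ v => by rw [Formula.realize_inf, hs, ht]⟩
theorem or (hP : UD α P) (hQ : UD α Q) : UD α fun F _ v => P F v ∨ Q F v := by
  obtain ⟨s, hs⟩ := hP; obtain ⟨t, ht⟩ := hQ
  exact ⟨s ⊔ t, fun F _ _ v => by rw [Formula.realize_sup, hs, ht]⟩
theorem imp (hP : UD α P) (hQ : UD α Q) : UD α fun F _ v => P F v → Q F v := by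
  obtain ⟨s, hs⟩ := hP; obtain ⟨t, ht⟩ := hQ
  exact ⟨s.imp t, fun F _ _ v => by rw [Formula.realize_imp, hs, ht]⟩
theorem list {γ : Type} (l : List γ) {P : γ → ∀ (F : Type) [Field F], (α → F) → Prop}
    (h : ∀ c, UD α (P c)) : UD α fun F _ v => ∀ c ∈ l, P c F v := by
  induction l with
  | nil => exact top.of_iff fun _ _ _ => by simp
  | cons c l ih => exact ((h c).and ih).of_iff fun _ _ _ => by simp
theorem all [Finite β] {P : ∀ (F : Type) [Field F], (α → F) → (β → F) → Prop}
    (h : UD (α ⊕ β) fun F _ v => P F (fun a => v (Sum.inl a)) fun b => v (Sum.inr b)) :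
    UD α fun F _ v => ∀ y, P F v y := by
  obtain ⟨s, hs⟩ := h
  exact ⟨s.iAlls β, fun F _ _ v => by simp only [Formula.realize_iAlls, hs]; rfl⟩
theorem ex [Finite β] {P : ∀ (F : Type) [Field F], (α → F) → (β → F) → Prop}
    (h : UD (α ⊕ β) fun F _ v => P F (fun a => v (Sum.inl a)) fun b => v (Sum.inr b)) :
    UD α fun F _ v => ∃ y, P F v y := by
  obtain ⟨s, hs⟩ := h
  exact ⟨s.iExs β, fun F _ _ v => by simp only [Formula.realize_iExs, hs]; rfl⟩
theorem all1 {P : ∀ (F : Type) [Field F], (α → F) → F → Prop}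
    (h : UD (α ⊕ Unit) fun F _ v => P F (fun a => v (Sum.inl a)) (v (Sum.inr ()))) :
    UD α fun F _ v => ∀ y, P F v y :=
  (all (β := Unit) (P := fun F _ v y => P F v (y ())) h).of_iff fun _ _ _ =>
    ⟨fun h y => h fun _ => y, fun h _ => h _⟩
theorem subst (hP : UD α P) {s : α → ∀ (F : Type) [Field F], (β → F) → F} (hs : ∀ a, UT β (s a)) :
    UD β fun F _ v => P F fun a => s a F v := by
  obtain ⟨t, ht⟩ := hP
  choose u hu using hs
  refine ⟨t.subst u, fun F _ _ v => ?_⟩
  rw [Formula.Realize, BoundedFormula.realize_subst]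
  simp only [hu]
  exact ht F _

variable {c d x : ∀ (F : Type) [Field F], (α → F) → F}

theorem nm (n : ℕ) (hc : UT α c) (hx : UT α x) :
    UD α fun F _ v => ∃ ξ : Fin (n + 1) → F, Nm n (c F v) ξ = x F v := by
  apply ex (β := Fin (n + 1)) (P := fun F _ v ξ => Nm n (c F v) ξ = x F v)
  have h1 := (UT.nm n).subst (β := α ⊕ Fin (n + 1))
    (s := fun o F _ v => o.elim (c F fun a => v (Sum.inl a)) fun i => v (Sum.inr i)) (by
      rintro (_ | i)
      · exact hc.subst fun a => UT.var (Sum.inl a)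
      · exact UT.var _)
  exact eq h1 (hx.subst fun a => UT.var (Sum.inl a))

theorem xp (n : ℕ) (hc : UT α c) (hd : UT α d) (hx : UT α x) :
    UD α fun F _ v => Xp n (c F v) (d F v) (x F v) :=
  nm n hc (UT.one.add (hd.mul (hx.pow _)))

theorem valid (n : ℕ) (hc : UT α c) (hd : UT α d) : UD α fun F _ v => Valid n (c F v) (d F v) := by
  refine (xp n hc hd UT.zero).and (all1 (P := fun F _ v y => Xp n (c F v) (d F v) y →
    Xp n (c F v) (d F v) (y + 1)) ?_)
  have h1 := hc.subst (β := α ⊕ Unit) fun a => UT.var (Sum.inl a)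
  have h2 := hd.subst (β := α ⊕ Unit) fun a => UT.var (Sum.inl a)
  exact (xp n h1 h2 (UT.var _)).imp (xp n h1 h2 ((UT.var _).add UT.one))

theorem up (n : ℕ) (hc : UT α c) (hd : UT α d) (hx : UT α x) :
    UD α fun F _ v => Up n (c F v) (d F v) (x F v) := by
  refine and (P := fun F _ v => ∀ y z, Valid n y z → Xp n y z (x F v)) ?_
    (nm n hc (UT.one.add (hx.mul hd)))
  apply all1 (P := fun F _ v y => ∀ z, Valid n y z → Xp n y z (x F v))
  apply all1 (α := α ⊕ Unit) (P := fun F _ v z => Valid n (v (Sum.inr ())) z →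
    Xp n (v (Sum.inr ())) z (x F fun a => v (Sum.inl a)))
  exact (valid n (UT.var _) (UT.var _)).imp
    (xp n (UT.var _) (UT.var _) (hx.subst fun a => UT.var (Sum.inl (Sum.inl a))))

theorem clf (n : ℕ) (rs : List (List Ex × Ex)) (hc : UT α c) (hd : UT α d) :
    UD α fun F _ v => ClF rs (Up n (c F v) (d F v)) := by
  refine (up n hc hd UT.zero).and (and ?_ (list rs fun r => ?_))
  · apply all1 (P := fun F _ v y => Up n (c F v) (d F v) y ∨ Up n (c F v) (d F v) (y - 1) →
      Up n (c F v) (d F v) (y + y))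
    have h1 := hc.subst (β := α ⊕ Unit) fun a => UT.var (Sum.inl a)
    have h2 := hd.subst (β := α ⊕ Unit) fun a => UT.var (Sum.inl a)
    exact ((up n h1 h2 (UT.var _)).or (up n h1 h2 ((UT.var _).sub UT.one))).imp
      (up n h1 h2 ((UT.var _).add (UT.var _)))
  · apply all (β := Fin 8) (P := fun F _ v w => (∀ i, Up n (c F v) (d F v) (w i) ∨
      Up n (c F v) (d F v) (w i - 1)) → (∀ p ∈ r.1, Up n (c F v) (d F v) (p.ev w)) →
        Up n (c F v) (d F v) (r.2.ev w))
    have h1 := hc.subst (β := α ⊕ Fin 8) fun a => UT.var (Sum.inl a)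
    have h2 := hd.subst (β := α ⊕ Fin 8) fun a => UT.var (Sum.inl a)
    have h3 : ∀ p : Ex, UD (α ⊕ Fin 8) fun F _ v => Up n (c F fun a => v (Sum.inl a))
        (d F fun a => v (Sum.inl a)) (p.ev fun b => v (Sum.inr b)) := fun p =>
      up n h1 h2 ((UT.ex p).subst fun a => UT.var _)
    refine imp ?_ ((list r.1 h3).imp (h3 _))
    exact (list (List.finRange 8) fun i => (up n h1 h2 (UT.var (Sum.inr i))).or
      (up n h1 h2 ((UT.var (Sum.inr i)).sub UT.one))).of_iff fun _ _ _ => by simp

end UD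

/-- Numerals. -/
def num : ℕ → Language.ring.Term (Empty ⊕ Fin 1)
  | 0 => 0
  | k + 1 => num k + 1

theorem realize_num {F : Type} [Field F] [CompatibleRing F] (v : Empty ⊕ Fin 1 → F) (k : ℕ) :
    (num k).realize v = k := by
  induction k with
  | zero => simp [num]
  | succ k ih => simp [num, ih]

theorem primrec_num : Primrec fun k => termCode (num k) := by
  have : Primrec fun k : ℕ => (Nat.rec (Nat.pair 1 0)
      (fun _ ih => Nat.pair 4 (Nat.pair ih (Nat.pair 2 0))) k : ℕ) :=
    Primrec.nat_rec₁ _ (Primrec₂.natPair.comp (Primrec.const 4)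
      (Primrec₂.natPair.comp Primrec.snd (Primrec.const _))).to₂
  refine this.of_eq fun k => ?_
  induction k with
  | zero => rfl
  | succ k ih => simp only [ih]; rfl

/-- Conjunction of the field axioms. -/
def fieldAx : Language.ring.Sentence :=
  ([.addAssoc, .zeroAdd, .negAddCancel, .mulAssoc, .mulComm, .oneMul, .existsInv, .leftDistrib,
    .existsPairNE].map FirstOrder.Field.FieldAxiom.toSentence).foldr (· ⊓ ·) ⊤

theorem fieldAx_iff (M : Type) [Language.ring.Structure M] :
    M ⊨ fieldAx ↔ M ⊨ Theory.field := by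
  rw [Sentence.Realize, Formula.Realize, fieldAx, BoundedFormula.realize_foldr_inf,
    Theory.model_iff]
  constructor
  · rintro h _ ⟨a, rfl⟩
    exact h _ (List.mem_map_of_mem (by cases a <;> simp))
  · intro h φ hφ
    obtain ⟨a, -, rfl⟩ := List.mem_map.1 hφ
    exact h _ ⟨a, rfl⟩

theorem main (K : Type) [Field K] [CharZero K] [CompatibleRing K] (hK : AlgBounded K)
    (Φ : Language.ring.Theory) (hfin : Φ.Finite) (hΦ : K ⊨ Φ) :
    ¬ ComputablePred fun k : ℕ => ∃ σ : Language.ring.Sentence, code σ = k ∧ Φ ⊨ᵇ σ := by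
  intro hcomp
  obtain ⟨c, hc⟩ := exists_code
  obtain ⟨n, L, _, _, _, hL, c0, ε, hU⟩ := exists_model K hK Φ hfin hΦ M0 (Or.inl ⟨0, rfl⟩)
  let e : Ex := eE c (.v 0) (.c 0)
  have hD : UD (Fin 1) fun F _ v => ∀ y z : F, ClF (base ++ rules c) (Up n y z) →
      Up n y z (e.ev fun _ => v 0) := by
    apply UD.all1 (P := fun F _ v y => ∀ z : F, ClF (base ++ rules c) (Up n y z) →
      Up n y z (e.ev fun _ => v 0))
    apply UD.all1 (α := Fin 1 ⊕ Unit) (P := fun F _ v z => ClF (base ++ rules c) (Up n (v (Sum.inr ())) z) →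
      Up n (v (Sum.inr ())) z (e.ev fun _ => v (Sum.inl 0)))
    exact (UD.clf n _ (UT.var _) (UT.var _)).imp
      (UD.up n (UT.var _) (UT.var _) ((UT.ex e).subst fun _ => UT.var _))
  obtain ⟨ψ, hψ⟩ := hD
  let ψ' : Language.ring.BoundedFormula Empty 1 := BoundedFormula.relabel Sum.inr ψ
  let σ : ℕ → Language.ring.Sentence := fun k =>
    BoundedFormula.imp fieldAx (.all (.imp (.equal (.var (Sum.inr 0)) (num k)) ψ'))
  have hσ : ∀ (F : Type) [Field F] [CompatibleRing F] (k : ℕ), F ⊨ σ k ↔ ∀ y z : F,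
      ClF (base ++ rules c) (Up n y z) → Up n y z (fact (Encodable.encode c + 2) k 0 0 : ℕ) := by
    intro F _ _ k
    have h1 : F ⊨ fieldAx := (fieldAx_iff F).2 inferInstance
    rw [Sentence.Realize, Formula.Realize] at h1 ⊢
    simp only [σ, BoundedFormula.realize_imp, h1, true_imp_iff, BoundedFormula.realize_all, ψ',
      Formula.realize_relabel_sumInr, hψ]
    have e1 : ∀ a : F, (Fin.snoc (default : Fin 0 → F) a : Fin 1 → F) 0 = a := fun a => rfl
    simp only [BoundedFormula.Realize, Term.realize_var, Sum.elim_inr, realize_num, e1, forall_eq]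
    rw [Ex.ev_cast (fun _ => k) e]
    rfl
  have key : ∀ k, Φ ⊨ᵇ σ k ↔ 0 ∈ c.eval k := by
    intro k
    constructor
    · intro h
      have h1 := (hσ L k).1 (h.realize_sentence L) c0 ε (ClF.ofN (fun r hr =>
        (List.mem_append.1 hr).elim (base_sound r) (rules_sound c r)) hU)
      obtain ⟨m, hm, e⟩ := (hU _).1 h1
      rw [← Nat.cast_inj.1 e, fact_mem] at hm
      simpa [TF] using hm
    · intro h
      rw [Theory.models_sentence_iff]
      intro M
      by_cases hM : M ⊨ fieldAx
      · haveI := (fieldAx_iff M).1 hM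
        letI := FirstOrder.Field.fieldOfModelField M
        letI := FirstOrder.Field.compatibleRingOfModelField M
        refine (hσ M k).2 fun y z hcl => ?_
        have h1 := hcl.toN
        exact rules_complete (U := fun m => Up n y z m) (fun r hr => h1 r (List.mem_append_left _ hr)) c
          (fun r hr => h1 r (List.mem_append_right _ hr)) k 0 h
      · exact fun h => absurd h hM
  have hp : Primrec fun k => code (σ k) :=
    Primrec₂.natPair.comp (Primrec.const 2) (Primrec₂.natPair.comp (Primrec.const (code fieldAx))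
      (Primrec₂.natPair.comp (Primrec.const 3) (Primrec₂.natPair.comp (Primrec.const 2)
        (Primrec₂.natPair.comp (Primrec₂.natPair.comp (Primrec.const 1)
          (Primrec₂.natPair.comp (Primrec.const (Nat.pair 0 0)) primrec_num))
          (Primrec.const (code ψ'))))))
  obtain ⟨f, hf, e⟩ := ComputablePred.computable_iff.1 hcomp
  refine hc (ComputablePred.computable_iff.2 ⟨fun k => f (code (σ k)), hf.comp hp.to_comp,
    funext fun k => ?_⟩)
  rw [← congrFun e, ← key]
  exact propext ⟨fun h => ⟨_, rfl, h⟩, fun ⟨τ, h1, h2⟩ => code_injective h1 ▸ h2⟩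

end Pool.Agent.MP_b4c6b8_lc.H74
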