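import Mathlib

/-! Valuation lemmas and the target fields. -/

namespace Pool.Agent.MP_b4c6b8_lc.H74

open Polynomial

section DV
variable {R Γ : Type} [Field R] [LinearOrderedCommGroupWithZero Γ] (v : Valuation R Γ)

theorem dv {α : Type} (s : Finset α) (hs : s.Nonempty) (f : α → R)
    (h : ∀ i ∈ s, ∀ j ∈ s, i ≠ j → f i ≠ 0 → v (f i) ≠ v (f j)) :
    ∃ i ∈ s, v (∑ j ∈ s, f j) = v (f i) ∧ ∀ j ∈ s, v (f j) ≤ v (f i) := by
  classical
  obtain ⟨i, hi, hmax⟩ := s.exists_max_image (fun j => v (f j)) hs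
  refine ⟨i, hi, ?_, hmax⟩
  by_cases h0 : f i = 0
  · have : ∀ j ∈ s, f j = 0 := fun j hj => by
      have := hmax j hj
      rw [h0, map_zero, le_zero_iff] at this
      exact (map_eq_zero v).1 this
    rw [Finset.sum_eq_zero this, h0]
  · apply v.map_sum_eq_of_lt hi
    intro j hj
    rw [Finset.mem_sdiff, Finset.mem_singleton] at hj
    exact lt_of_le_of_ne (hmax j hj.1) (h i hi j hj.1 (Ne.symm hj.2) h0).symm

end DV

section Fin
variable {F E Γ : Type} [Field F] [Field E] [Algebra F E] [LinearOrderedCommGroupWithZero Γ]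
  (w : Valuation E Γ)

theorem vb (q : ℕ) (hq : 0 < q) (z : E) (hz : z ≠ 0)
    (h : ∀ k, 1 ≤ k → k < q → ∀ β : F, w (z ^ k) ≠ w (algebraMap F E β)) (a : Fin q → F) (j : Fin q) :
    w (a j • z ^ (j : ℕ)) ≤ w (∑ i, a i • z ^ (i : ℕ)) := by
  have key : ∀ i j : Fin q, i < j → a i • z ^ (i : ℕ) ≠ 0 → a j • z ^ (j : ℕ) ≠ 0 →
      w (a i • z ^ (i : ℕ)) ≠ w (a j • z ^ (j : ℕ)) := by
    intro i j hij hi hj heq
    have haj : a j ≠ 0 := fun h0 => hj (by rw [h0, zero_smul])
    have hlt : (i : ℕ) < j := hij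
    apply h (j - i) (by omega) (by have := j.2; omega) (a i / a j)
    have hz' : w z ^ (i : ℕ) ≠ 0 := pow_ne_zero _ ((map_ne_zero w).2 hz)
    have haj' : w (algebraMap F E (a j)) ≠ 0 := by simpa using haj
    simp only [Algebra.smul_def, map_mul, map_pow] at heq
    have e : w z ^ (j : ℕ) = w z ^ ((j : ℕ) - i) * w z ^ (i : ℕ) := by
      rw [← pow_add]; congr 1; omega
    rw [e, ← mul_assoc] at heq
    have := mul_right_cancel₀ hz' heq
    rw [map_div₀, map_div₀, map_pow, eq_div_iff haj', this, mul_comm]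
  obtain ⟨i, -, hi, hmax⟩ := dv w Finset.univ ⟨⟨0, hq⟩, Finset.mem_univ _⟩
    (fun i : Fin q => a i • z ^ (i : ℕ)) (by
      intro i _ j _ hij hi
      by_cases hj : a j • z ^ (j : ℕ) = 0
      · rw [hj, map_zero]; exact (map_ne_zero w).2 hi
      · rcases lt_or_gt_of_ne hij with h1 | h1
        · exact key i j h1 hi hj
        · exact (key j i h1 hj hi).symm)
  rw [hi]
  exact hmax j (Finset.mem_univ _)

theorem vb_li (q : ℕ) (hq : 0 < q) (z : E) (hz : z ≠ 0)
    (h : ∀ k, 1 ≤ k → k < q → ∀ β : F, w (z ^ k) ≠ w (algebraMap F E β)) :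
    LinearIndependent F (fun i : Fin q => z ^ (i : ℕ)) := by
  rw [Fintype.linearIndependent_iff]
  intro a ha j
  have := vb w q hq z hz h a j
  rw [ha, map_zero, le_zero_iff, map_eq_zero] at this
  rcases smul_eq_zero.1 this with h1 | h1
  · exact h1
  · exact absurd h1 (pow_ne_zero _ hz)

theorem lemA [FiniteDimensional F E] (q : ℕ) (hq : Module.finrank F E < q) (z : E) (hz : z ≠ 0) :
    ∃ k, 1 ≤ k ∧ k < q ∧ ∃ β : F, w (z ^ k) = w (algebraMap F E β) := by
  by_contra hcon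
  push Not at hcon
  have := (vb_li w q (by omega) z hz hcon).fintype_card_le_finrank
  rw [Fintype.card_fin] at this
  omega

theorem lemC [FiniteDimensional F E] (q : ℕ) (hq0 : 0 < q) (hq : Module.finrank F E = q)
    (y : E) (hy : w (y - 1) < 1) (htr : Algebra.trace F E y = 0) (hwq : w (q : E) = 1)
    (z : E) (hz : z ≠ 0) :
    ∃ k, 1 ≤ k ∧ k < q ∧ ∃ β : F, w (z ^ k) = w (algebraMap F E β) := by
  classical
  by_contra hcon
  push Not at hcon
  haveI : Nonempty (Fin q) := ⟨⟨0, hq0⟩⟩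
  let b : Module.Basis (Fin q) F E :=
    basisOfLinearIndependentOfCardEqFinrank (vb_li w q hq0 z hz hcon) (by rw [Fintype.card_fin, hq])
  have hb : ∀ i, b i = z ^ (i : ℕ) := fun i => by simp [b]
  have h1 : w (algebraMap F E (Algebra.trace F E (y - 1))) < 1 := by
    rw [Algebra.trace_eq_matrix_trace b, Matrix.trace, map_sum]
    apply w.map_sum_lt one_ne_zero
    intro j _
    rw [Matrix.diag_apply, Algebra.leftMulMatrix_eq_repr_mul]
    have h2 := vb w q hq0 z hz hcon (fun i => b.repr ((y - 1) * b j) i) j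
    have h3 : ∑ i : Fin q, b.repr ((y - 1) * b j) i • z ^ (i : ℕ) = (y - 1) * b j := by
      conv_rhs => rw [← b.sum_repr ((y - 1) * b j)]
      simp only [hb]
    rw [h3, Algebra.smul_def, w.map_mul, w.map_mul (y - 1), hb j] at h2
    have hz' : 0 < w (z ^ (j : ℕ)) := zero_lt_iff.2 ((map_ne_zero w).2 (pow_ne_zero _ hz))
    rw [hb j]
    exact lt_of_le_of_lt (le_of_mul_le_mul_right h2 hz') hy
  have h4 : Algebra.trace F E (y - 1) = -(q : F) := by
    have : Algebra.trace F E 1 = (q : F) := by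
      have := Algebra.trace_algebraMap (R := F) (S := E) 1
      rw [map_one, hq] at this
      simpa using this
    rw [map_sub, htr, this, zero_sub]
  rw [h4, map_neg, Valuation.map_neg, map_natCast, hwq] at h1
  exact lt_irrefl _ h1

end Fin

/-- A valued field with a subfield closed under small extensions. -/
structure Target (q : ℕ) (R : Type) [Field R] where
  O : ValuationSubring R
  H : Subfield R
  t1 : R
  t2 : R
  m1 : t1 ∈ H
  m2 : t2 ∈ H
  n1 : t1 ≠ 0
  n2 : t2 ≠ 0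
  l1 : O.valuation t1 < 1
  l2 : O.valuation t2 < 1
  inv : ∀ i j : ℤ, ∀ z ∈ H, z ≠ 0 →
    O.valuation t1 ^ i * O.valuation t2 ^ j = O.valuation z ^ q → (q : ℤ) ∣ i ∧ (q : ℤ) ∣ j
  small : ∀ p : R[X], p ≠ 0 → p.natDegree < q → (∀ i, p.coeff i ∈ H) → ∀ β, p.eval β = 0 → β ∈ H
  hens : ∀ u ∈ H, O.valuation (u - 1) < 1 → ∃ y ∈ H, y ^ q = u

section Zorn
variable {R Γ : Type} [Field R] [LinearOrderedCommGroupWithZero Γ] (v : Valuation R Γ)

def Inv (q : ℕ) (t1 t2 : R) (H : Subfield R) : Prop :=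
  ∀ i j : ℤ, ∀ z ∈ H, z ≠ 0 → v t1 ^ i * v t2 ^ j = v z ^ q → (q : ℤ) ∣ i ∧ (q : ℤ) ∣ j

theorem Inv.up {q : ℕ} (hq : q.Prime) {t1 t2 : R} {H H' : Subfield R} (h : Inv v q t1 t2 H)
    (hh : ∀ z ∈ H', z ≠ 0 → ∃ k, 1 ≤ k ∧ k < q ∧ ∃ β ∈ H, v (z ^ k) = v β) :
    Inv v q t1 t2 H' := by
  intro i j z hz hz0 he
  obtain ⟨k, hk1, hkq, β, hβ, hv⟩ := hh z hz hz0
  have hβ0 : β ≠ 0 := by
    rintro rfl
    rw [map_zero, map_eq_zero] at hv
    exact pow_ne_zero _ hz0 hv
  have := h (i * k) (j * k) β hβ hβ0 (by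
    rw [← hv, map_pow, ← pow_mul, mul_comm k q, pow_mul, ← he, mul_pow, zpow_mul, zpow_mul,
      zpow_natCast, zpow_natCast])
  have hp : Prime (q : ℤ) := Nat.prime_iff_prime_int.1 hq
  have hk : ¬ (q : ℤ) ∣ k := by
    intro hd
    have := Nat.le_of_dvd (by omega) (Int.natCast_dvd_natCast.1 hd)
    omega
  exact ⟨(hp.dvd_or_dvd this.1).resolve_right hk, (hp.dvd_or_dvd this.2).resolve_right hk⟩

theorem exists_root_near [IsAlgClosed R] {q : ℕ} (hq : 0 < q) {u : R} (hu : v (u - 1) < 1) :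
    ∃ y, y ^ q = u ∧ v (y - 1) < 1 := by
  by_contra hcon
  push Not at hcon
  have hm : (X ^ q - C u : R[X]).Monic := monic_X_pow_sub_C u hq.ne'
  have hs : (X ^ q - C u : R[X]).Splits := IsAlgClosed.splits _
  have e := hs.eval_eq_prod_roots_of_monic hm 1
  simp only [eval_sub, eval_pow, eval_X, one_pow, eval_C] at e
  have : 1 ≤ v (1 - u) := by
    rw [e, map_multiset_prod]
    apply Multiset.one_le_prod_of_one_le
    intro x hx
    simp only [Multiset.map_map, Multiset.mem_map, Function.comp_apply] at hx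
    obtain ⟨y, hy, rfl⟩ := hx
    rw [v.map_sub_swap]
    apply hcon
    have := (mem_roots hm.ne_zero).1 hy
    simpa [sub_eq_zero] using this
  rw [v.map_sub_swap] at this
  exact absurd hu (not_lt.2 this)

theorem exists_max [IsAlgClosed R] {q : ℕ} (hq : q.Prime) (hq2 : 2 ≤ q) (hvq : v (q : R) = 1)
    {t1 t2 : R} {H0 : Subfield R} (h0 : Inv v q t1 t2 H0) :
    ∃ H : Subfield R, H0 ≤ H ∧ Inv v q t1 t2 H ∧
      (∀ p : R[X], p ≠ 0 → p.natDegree < q → (∀ i, p.coeff i ∈ H) → ∀ β, p.eval β = 0 → β ∈ H) ∧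
      (∀ u ∈ H, v (u - 1) < 1 → ∃ y ∈ H, y ^ q = u) := by
  obtain ⟨H, hH0, hmax⟩ := zorn_le_nonempty₀ {H : Subfield R | Inv v q t1 t2 H} (by
    intro c hc hchain y hy
    refine ⟨sSup c, ?_, fun z hz => le_sSup hz⟩
    intro i j z hz hz0 he
    obtain ⟨S, hS, hzS⟩ := (Subfield.mem_sSup_of_directedOn ⟨y, hy⟩ hchain.directedOn).1 hz
    exact hc hS i j z hzS hz0 he) H0 h0
  have hinv : Inv v q t1 t2 H := hmax.1
  have fin : ∀ β : R, (∀ z : IntermediateField.adjoin H {β}, z ≠ 0 → ∃ k, 1 ≤ k ∧ k < q ∧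
      ∃ b : H, (v.comap (algebraMap (IntermediateField.adjoin H {β}) R)) (z ^ k) =
        (v.comap (algebraMap (IntermediateField.adjoin H {β}) R)) (algebraMap H _ b)) → β ∈ H := by
    intro β hβ
    have h1 : Inv v q t1 t2 (IntermediateField.adjoin H {β}).toSubfield := by
      apply hinv.up v hq
      intro z hz hz0
      obtain ⟨k, hk1, hkq, b, hb⟩ := hβ ⟨z, hz⟩ (fun h => hz0 (congrArg Subtype.val h))
      exact ⟨k, hk1, hkq, b, b.2, hb⟩
    have h2 : H ≤ (IntermediateField.adjoin H {β}).toSubfield := fun x hx =>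
      (IntermediateField.adjoin H {β}).algebraMap_mem ⟨x, hx⟩
    exact hmax.2 h1 h2 (IntermediateField.mem_adjoin_simple_self H β)
  have sm : ∀ β : R, IsIntegral H β → (minpoly H β).natDegree < q → β ∈ H := by
    intro β hi hd
    apply fin
    haveI := IntermediateField.adjoin.finiteDimensional hi
    intro z hz
    exact lemA _ q (by rw [IntermediateField.adjoin.finrank hi]; exact hd) z hz
  have lift : ∀ p : R[X], (∀ i, p.coeff i ∈ H) → ∃ p' : H[X], p'.map (algebraMap H R) = p := by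
    intro p hp
    rw [← mem_lifts, lifts_iff_coeff_lifts]
    intro i
    exact ⟨⟨_, hp i⟩, rfl⟩
  refine ⟨H, hH0, hinv, ?_, ?_⟩
  · intro p hp0 hd hc β hβ
    obtain ⟨p', rfl⟩ := lift p hc
    have hp' : p' ≠ 0 := by rintro rfl; simp at hp0
    have ha : aeval β p' = 0 := by rwa [aeval_def, ← eval_map]
    have hi : IsIntegral H β := (show IsAlgebraic H β from ⟨p', hp', ha⟩).isIntegral
    apply sm β hi
    rw [natDegree_map] at hd
    exact lt_of_le_of_lt (natDegree_le_of_dvd (minpoly.dvd H β ha) hp') hd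
  · intro u hu hv
    obtain ⟨y, hy, hy1⟩ := exists_root_near v hq.pos hv
    refine ⟨y, ?_, hy⟩
    have hm : (X ^ q - C (⟨u, hu⟩ : H)).Monic := monic_X_pow_sub_C _ hq.ne_zero
    have ha : aeval y (X ^ q - C (⟨u, hu⟩ : H)) = 0 := by
      simp only [map_sub, map_pow, aeval_X, aeval_C, hy]
      exact sub_self _
    have hi : IsIntegral H y := ⟨_, hm, ha⟩
    have hdvd := minpoly.dvd H y ha
    have hle := natDegree_le_of_dvd hdvd hm.ne_zero
    rw [natDegree_X_pow_sub_C] at hle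
    rcases hle.lt_or_eq with hlt | heq
    · exact sm y hi hlt
    · have hmin : X ^ q - C (⟨u, hu⟩ : H) = minpoly H y :=
        eq_of_monic_of_dvd_of_natDegree_le (minpoly.monic hi) hm hdvd
          (by rw [natDegree_X_pow_sub_C, heq])
      apply fin
      haveI := IntermediateField.adjoin.finiteDimensional hi
      intro z hz
      refine lemC _ q hq.pos (by rw [IntermediateField.adjoin.finrank hi]; exact heq)
        (IntermediateField.AdjoinSimple.gen H y) ?_ ?_ ?_ z hz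
      · simpa using hy1
      · have := (IntermediateField.adjoin.powerBasis hi).trace_gen_eq_nextCoeff_minpoly
        rw [IntermediateField.adjoin.powerBasis_gen, IntermediateField.minpoly_gen, ← hmin] at this
        rw [this, nextCoeff_of_natDegree_pos (by rw [natDegree_X_pow_sub_C]; omega),
          natDegree_X_pow_sub_C, coeff_sub, coeff_X_pow, coeff_C, if_neg (by omega),
          if_neg (by omega)]
        simp
      · simpa using hvq

end Zorn

end Pool.Agent.MP_b4c6b8_lc.H74
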