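import Pool.Agent.MP_b4c6b8_lc.H74.Ind
import Pool.Agent.MP_b4c6b8_lc.H74.Val

/-! The norm form of the algebra obtained by adjoining a root of `c`. -/

set_option linter.unusedSectionVars false

namespace Pool.Agent.MP_b4c6b8_lc.H74

open Polynomial Set

section Ring
variable {R S : Type} [CommRing R] [CommRing S]

/-- Norm form. -/
noncomputable def Nm (n : ℕ) (c : R) (ξ : Fin (n + 1) → R) : R :=
  resultant (X ^ (n + 1) - C c) (∑ i : Fin (n + 1), monomial i (ξ i)) (n + 1) (n + 1)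

theorem Nm_map (φ : R →+* S) (n : ℕ) (c : R) (ξ : Fin (n + 1) → R) :
    φ (Nm n c ξ) = Nm n (φ c) (fun i => φ (ξ i)) := by
  rw [Nm, Nm, ← resultant_map_map]
  congr 1
  · simp
  · simp [Polynomial.map_sum]

/-- The norm form as a polynomial in the first coordinate. -/
noncomputable def Pn (n : ℕ) (c : R) (η : Fin n → R) : R[X] :=
  Nm n (C c) (Fin.cons X fun i => C (η i))

theorem Pn_eval (n : ℕ) (c : R) (η : Fin n → R) (x : R) :
    (Pn n c η).eval x = Nm n c (Fin.cons x η) := by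
  have := Nm_map (evalRingHom x) n (C c) (Fin.cons X fun i => C (η i))
  rw [coe_evalRingHom] at this
  rw [Pn, this, eval_C]
  congr 1
  funext i
  refine Fin.cases ?_ (fun j => ?_) i <;> simp

theorem Pn_map (φ : R →+* S) (n : ℕ) (c : R) (η : Fin n → R) :
    (Pn n c η).map φ = Pn n (φ c) (fun i => φ (η i)) := by
  have := Nm_map (mapRingHom φ) n (C c) (Fin.cons X fun i => C (η i))
  rw [coe_mapRingHom] at this
  rw [Pn, this, map_C, Pn]
  congr 1
  funext i
  refine Fin.cases ?_ (fun j => ?_) i <;> simp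

end Ring

section Field
variable {R : Type} [Field R]

/-- The roots of `c`. -/
noncomputable def rts (n : ℕ) (c : R) : Multiset R := (X ^ (n + 1) - C c : R[X]).roots

theorem mem_rts {n : ℕ} {c μ : R} : μ ∈ rts n c ↔ μ ^ (n + 1) = c := by
  rw [rts, mem_roots (monic_X_pow_sub_C c n.succ_ne_zero).ne_zero]
  simp [sub_eq_zero]

theorem card_rts [IsAlgClosed R] (n : ℕ) (c : R) : (rts n c).card = n + 1 := by
  rw [rts, ← (IsAlgClosed.splits _).natDegree_eq_card_roots, natDegree_X_pow_sub_C]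

theorem Nm_prod [IsAlgClosed R] (n : ℕ) (c : R) (ξ : Fin (n + 1) → R) :
    Nm n c ξ = ((rts n c).map fun μ => ∑ i : Fin (n + 1), ξ i * μ ^ (i : ℕ)).prod := by
  have hd : (∑ i : Fin (n + 1), monomial i (ξ i) : R[X]).natDegree ≤ n + 1 := by
    apply natDegree_sum_le_of_forall_le
    intro i _
    exact (natDegree_monomial_le _).trans i.2.le
  have := resultant_eq_prod_eval (X ^ (n + 1) - C c) _ (n + 1) hd (IsAlgClosed.splits _)
  rw [natDegree_X_pow_sub_C, (monic_X_pow_sub_C c n.succ_ne_zero).leadingCoeff, one_pow,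
    one_mul] at this
  rw [Nm, this, rts]
  congr 2
  funext μ
  simp [eval_finset_sum]

theorem Nm_mem {S : Subfield R} {n : ℕ} {c : R} {ξ : Fin (n + 1) → R} (hc : c ∈ S)
    (hξ : ∀ i, ξ i ∈ S) : Nm n c ξ ∈ S := by
  have := Nm_map S.subtype n ⟨c, hc⟩ (fun i => ⟨ξ i, hξ i⟩)
  exact (show Nm n c ξ = _ from this.symm) ▸ Subtype.prop _

theorem HomOn.nm {M : Type} [Field M] {E : Subfield M} {ι : M → R} (h : HomOn E ι) {n : ℕ} {c : M}
    {ξ : Fin (n + 1) → M} (hc : c ∈ E) (hξ : ∀ i, ξ i ∈ E) :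
    ι (Nm n c ξ) = Nm n (ι c) (fun i => ι (ξ i)) := by
  have e1 := Nm_map E.subtype n ⟨c, hc⟩ (fun i => ⟨ξ i, hξ i⟩)
  have e2 := Nm_map h.hom n ⟨c, hc⟩ (fun i => ⟨ξ i, hξ i⟩)
  rw [show Nm n c ξ = _ from e1.symm]
  exact e2

theorem Pn_monic (n : ℕ) (c : R) (η : Fin n → R) :
    (Pn n c η).Monic ∧ (Pn n c η).natDegree = n + 1 := by
  let φ := algebraMap R (AlgebraicClosure R)
  have e : (Pn n c η).map φ = ((rts n (φ c)).map fun μ =>
      X + C (∑ i : Fin n, φ (η i) * μ ^ ((i : ℕ) + 1))).prod := by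
    apply Polynomial.funext
    intro x
    rw [Pn_map, Pn_eval, Nm_prod, eval_multiset_prod, Multiset.map_map]
    congr 2
    funext μ
    simp only [Function.comp_apply, eval_add, eval_X, eval_C]
    simp [Fin.sum_univ_succ]
  have hm : ∀ p ∈ (rts n (φ c)).map fun μ => X + C (∑ i : Fin n, φ (η i) * μ ^ ((i : ℕ) + 1)),
      p.Monic := by
    intro p hp
    obtain ⟨μ, -, rfl⟩ := Multiset.mem_map.1 hp
    exact monic_X_add_C _
  constructor
  · apply monic_of_injective φ.injective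
    rw [e]
    simpa using monic_multiset_prod_of_monic _ id hm
  · rw [← natDegree_map φ, e, natDegree_multiset_prod_of_monic _ hm, Multiset.map_map]
    simp only [Function.comp_def, natDegree_X_add_C]
    simp [card_rts, add_comm]

theorem Nm_one (n : ℕ) (c : R) : Nm n c (Pi.single 0 1) = 1 := by
  apply (algebraMap R (AlgebraicClosure R)).injective
  rw [Nm_map, Nm_prod, map_one]
  apply Multiset.prod_eq_one
  intro x hx
  obtain ⟨μ, -, rfl⟩ := Multiset.mem_map.1 hx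
  simp [Fin.sum_univ_succ]

theorem indep_tail {S : Subfield R} {n : ℕ} {c u : R} {ξ : Fin (n + 1) → R} (hc : c ∈ S)
    (hu : u ∈ S) (h : Nm n c ξ = u) {r : Fin n → R} (hr : AlgebraicIndependent S r)
    (hm : ∀ i, r i ∈ acl S (range ξ)) : AlgebraicIndependent S (Fin.tail ξ) := by
  apply indep_of_acl hr
  intro i
  refine acl_mono ?_ (hm i)
  rintro _ ⟨j, rfl⟩
  refine Fin.cases ?_ (fun k => ?_) j
  · let T := adj S (range (Fin.tail ξ))
    let p : T[X] := Pn n ⟨c, le_adj _ _ hc⟩ (fun i => ⟨Fin.tail ξ i, sub_adj _ _ ⟨i, rfl⟩⟩) -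
      C ⟨u, le_adj _ _ hu⟩
    have hp := Pn_monic n (⟨c, le_adj _ _ hc⟩ : T) (fun i => ⟨Fin.tail ξ i, sub_adj _ _ ⟨i, rfl⟩⟩)
    have hp0 : p ≠ 0 := by
      intro h0
      have := congrArg natDegree h0
      rw [natDegree_sub_C, hp.2] at this
      simp at this
    have : IsAlgebraic T (ξ 0) := ⟨p, hp0, by
      rw [aeval_def, ← eval_map, Polynomial.map_sub, Pn_map, eval_sub, Pn_eval, map_C, eval_C]
      change Nm n c (Fin.cons (ξ 0) (Fin.tail ξ)) - u = 0
      rw [Fin.cons_self_tail, h, sub_self]⟩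
    exact mem_acl.2 this
  · exact adj_le_acl _ _ (sub_adj _ _ ⟨k, rfl⟩)

theorem avail_root [CharZero R] {n : ℕ} (hn : 1 ≤ n) {H S : Subfield R}
    (hH : ¬ (H : Set R).Countable) (hS : (S : Set R).Countable) (hSH : S ≤ H) {γ u : R}
    (hγ : γ ∈ H) (hγ0 : γ ≠ 0) (hu : u ∈ S) :
    ∃ ξ : Fin (n + 1) → R, (∀ i, ξ i ∈ H) ∧ Nm n (γ ^ (n + 1)) ξ = u ∧
      AlgebraicIndependent S (Fin.tail ξ) := by
  classical
  let T := adj S {γ}
  have hγT : γ ∈ T := sub_adj _ _ rfl
  have hTH : T ≤ H := adj_le hSH (singleton_subset_iff.2 hγ)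
  obtain ⟨r, hrH, hr⟩ := exists_indep hH (countable_adj hS (countable_singleton γ)) n
  let r' : Fin (n + 1) → R := Fin.snoc r 0
  have hr'H : ∀ i, r' i ∈ H := fun i => by
    refine Fin.lastCases ?_ (fun j => ?_) i
    · simp [r']
    · simpa [r'] using hrH j
  let ξ : R → Fin (n + 1) → R := fun l i => r' i + l * γ ^ (n - i)
  let φ := algebraMap R (AlgebraicClosure R)
  have hmem : φ γ ∈ rts n (φ (γ ^ (n + 1))) := by rw [mem_rts, map_pow]
  have hnd : (rts n (φ (γ ^ (n + 1)))).Nodup := by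
    apply nodup_roots
    apply separable_X_pow_sub_C
    · exact_mod_cast n.succ_ne_zero
    · simpa using hγ0
  obtain ⟨rest, hrest⟩ := Multiset.exists_cons_of_mem hmem
  have hne : ∀ μ ∈ rest, μ ≠ φ γ ∧ μ ^ (n + 1) = φ γ ^ (n + 1) := by
    intro μ hμ
    rw [hrest, Multiset.nodup_cons] at hnd
    refine ⟨fun e => hnd.1 (e ▸ hμ), ?_⟩
    rw [← map_pow, ← mem_rts, hrest]
    exact Multiset.mem_cons_of_mem hμ
  let ρ : AlgebraicClosure R → AlgebraicClosure R := fun μ =>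
    ∑ i : Fin (n + 1), φ (r' i) * μ ^ (i : ℕ)
  have key : ∀ l, φ (Nm n (γ ^ (n + 1)) (ξ l)) =
      (ρ (φ γ) + φ l * ((n + 1 : ℕ) * φ γ ^ n)) * (rest.map ρ).prod := by
    intro l
    rw [Nm_map, Nm_prod, hrest, Multiset.map_cons, Multiset.prod_cons]
    have sp : ∀ μ, ∑ i : Fin (n + 1), φ (ξ l i) * μ ^ (i : ℕ) =
        ρ μ + φ l * ∑ i ∈ Finset.range (n + 1), μ ^ i * φ γ ^ (n + 1 - 1 - i) := by
      intro μ
      rw [← Fin.sum_univ_eq_sum_range (fun i => μ ^ i * φ γ ^ (n + 1 - 1 - i)), Finset.mul_sum,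
        ← Finset.sum_add_distrib]
      apply Finset.sum_congr rfl
      intro i _
      simp only [ξ, map_add, map_mul, map_pow, Nat.add_sub_cancel]
      ring
    congr 1
    · rw [sp, geom_sum₂_self]
      simp
    · congr 1
      apply Multiset.map_congr rfl
      intro μ hμ
      have h1 := geom_sum₂_mul μ (φ γ) (n + 1)
      rw [(hne μ hμ).2, sub_self] at h1
      rw [sp, (mul_eq_zero.1 h1).resolve_right (sub_ne_zero.2 (hne μ hμ).1), mul_zero, add_zero]
  have hA : Nm n (γ ^ (n + 1)) (ξ 0) ≠ 0 := by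
    intro h0
    let Q : MvPolynomial (Fin n) T :=
      Nm n (MvPolynomial.C (⟨γ, hγT⟩ ^ (n + 1))) (Fin.snoc MvPolynomial.X 0)
    have ev : ∀ s : Fin n → R, MvPolynomial.aeval s Q = Nm n (γ ^ (n + 1)) (Fin.snoc s 0) := by
      intro s
      have := Nm_map (MvPolynomial.aeval s : MvPolynomial (Fin n) T →ₐ[T] R).toRingHom n
        (MvPolynomial.C (⟨γ, hγT⟩ ^ (n + 1))) (Fin.snoc MvPolynomial.X 0)
      refine this.trans ?_
      congr 1
      · simp
        rfl
      · funext i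
        refine Fin.lastCases ?_ (fun j => ?_) i <;> simp
    have hQ : Q = 0 := by
      apply hr.eq_zero_of_aeval_eq_zero
      rw [ev]
      refine Eq.trans ?_ h0
      congr 1
      funext i
      simp [ξ, r']
    have := ev (Pi.single ⟨0, hn⟩ 1)
    rw [hQ, map_zero] at this
    have e : (Fin.snoc (Pi.single ⟨0, hn⟩ 1 : Fin n → R) 0 : Fin (n + 1) → R) = Pi.single 0 1 := by
      funext i
      refine Fin.lastCases ?_ (fun j => ?_) i
      · rw [Fin.snoc_last, Pi.single_eq_of_ne]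
        intro e
        have := congrArg Fin.val e
        simp at this
        omega
      · rw [Fin.snoc_castSucc]
        simp only [Pi.single_apply, Fin.ext_iff, Fin.val_castSucc, Fin.val_zero]
    rw [e, Nm_one] at this
    exact zero_ne_one this
  set A := Nm n (γ ^ (n + 1)) (ξ 0) with hAdef
  set B := Nm n (γ ^ (n + 1)) (ξ 1) - A with hBdef
  have hξH : ∀ l ∈ H, ∀ i, ξ l i ∈ H := fun l hl i =>
    H.add_mem (hr'H i) (H.mul_mem hl (H.pow_mem hγ _))
  have hAH : A ∈ H := Nm_mem (H.pow_mem hγ _) (hξH 0 H.zero_mem)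
  have hBH : B ∈ H := H.sub_mem (Nm_mem (H.pow_mem hγ _) (hξH 1 H.one_mem)) hAH
  have hB' : φ B = ((n + 1 : ℕ) * φ γ ^ n) * (rest.map ρ).prod := by
    rw [hBdef, map_sub, hAdef, key, key, map_one, map_zero]; ring
  have hB : B ≠ 0 := by
    intro h0
    rw [h0, map_zero] at hB'
    have h1 : ((n + 1 : ℕ) * φ γ ^ n : AlgebraicClosure R) ≠ 0 :=
      mul_ne_zero (by exact_mod_cast n.succ_ne_zero) (pow_ne_zero _ (by simpa using hγ0))
    have h2 := (mul_eq_zero.1 hB'.symm).resolve_left h1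
    apply hA
    apply φ.injective
    rw [key, h2, mul_zero, map_zero]
  have lin : ∀ l, Nm n (γ ^ (n + 1)) (ξ l) = A + l * B := by
    intro l
    apply φ.injective
    rw [map_add, map_mul, hB', hAdef, key, key, map_zero]; ring
  have hl : (u - A) / B ∈ H := H.div_mem (H.sub_mem (hSH hu) hAH) hBH
  have hN : Nm n (γ ^ (n + 1)) (ξ ((u - A) / B)) = u := by
    rw [lin]; field_simp; ring
  refine ⟨ξ ((u - A) / B), hξH _ hl, hN, indep_mono (le_adj S {γ}) ?_⟩
  apply indep_tail (T.pow_mem hγT _) (le_adj _ _ hu) hN hr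
  intro i
  have e : r i = ξ ((u - A) / B) i.castSucc -
      ξ ((u - A) / B) (Fin.last n) * γ ^ (n - (i.castSucc : Fin (n + 1))) := by
    simp [ξ, r']
  rw [e]
  apply adj_le_acl
  exact sub_mem (sub_adj _ _ ⟨_, rfl⟩) (mul_mem (sub_adj _ _ ⟨_, rfl⟩)
    (pow_mem (le_adj _ _ hγT) _))

theorem val_prod_one {Γ : Type} [LinearOrderedCommGroupWithZero Γ] (v : Valuation R Γ)
    (s : Multiset R) (h : ∀ x ∈ s, v (x - 1) < 1) : v (s.prod - 1) < 1 := by
  induction s using Multiset.induction_on with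
  | empty => simp
  | cons a s ih =>
    rw [Multiset.prod_cons]
    have h1 := h a (Multiset.mem_cons_self _ _)
    have h2 := ih fun x hx => h x (Multiset.mem_cons_of_mem hx)
    have e : a * s.prod - 1 = (a - 1) * (s.prod - 1) + (a - 1) + (s.prod - 1) := by ring
    rw [e]
    refine v.map_add_lt (v.map_add_lt ?_ h1) h2
    rw [map_mul]
    exact mul_lt_one_of_nonneg_of_lt_one_left zero_le' h1 h2.le

namespace Target
variable [IsAlgClosed R] {n : ℕ} (T : Target (n + 1) R)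

theorem unc_small (hH : ¬ (T.H : Set R).Countable) :
    ¬ {x | x ∈ T.H ∧ T.O.valuation x < 1}.Countable := by
  intro hc
  apply hH
  have h1 : {x | x ∈ T.H ∧ T.O.valuation x ≤ 1}.Countable := by
    refine (hc.image fun x => x / T.t2).mono ?_
    rintro x ⟨hx, hv⟩
    refine ⟨x * T.t2, ⟨T.H.mul_mem hx T.m2, ?_⟩, mul_div_cancel_right₀ x T.n2⟩
    rw [map_mul]
    exact mul_lt_one_of_nonneg_of_lt_one_right hv zero_le' T.l2
  refine (h1.union (h1.image fun x => x⁻¹)).mono ?_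
  intro x hx
  rcases T.O.valuation.val_le_one_or_val_inv_le_one x with h | h
  · exact Or.inl ⟨hx, h⟩
  · exact Or.inr ⟨x⁻¹, ⟨T.H.inv_mem hx, h⟩, inv_inv x⟩

theorem avail_own (hH : ¬ (T.H : Set R).Countable) {S : Subfield R} (hS : (S : Set R).Countable)
    (hSH : S ≤ T.H) (ht : T.t1 ∈ S) {s : R} (hs : s ∈ T.H) (hs0 : s ≠ 0) :
    ∃ ξ : Fin (n + 1) → R, (∀ i, ξ i ∈ T.H) ∧ Nm n T.t1 ξ = s ^ (n + 1) ∧
      AlgebraicIndependent S (Fin.tail ξ) := by
  let S' := adj S {s}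
  have hsS : s ∈ S' := sub_adj _ _ rfl
  obtain ⟨r, hrH, hr⟩ := exists_indep (T.unc_small hH) (countable_adj hS (countable_singleton s)) n
  let η : Fin (n + 1) → R := Fin.cons 1 r
  have hη : ∀ i, η i ∈ T.H := fun i => by
    refine Fin.cases ?_ (fun j => ?_) i
    · exact T.H.one_mem
    · exact (hrH j).1
  have h1 : T.O.valuation (Nm n T.t1 η - 1) < 1 := by
    rw [Nm_prod]
    apply val_prod_one
    intro x hx
    obtain ⟨μ, hμ, rfl⟩ := Multiset.mem_map.1 hx
    have hv : T.O.valuation μ ≤ 1 := by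
      by_contra hlt
      have := one_lt_pow₀ (not_le.1 hlt) n.succ_ne_zero
      rw [← map_pow, mem_rts.1 hμ] at this
      exact absurd T.l1 (not_lt.2 this.le)
    simp only [Fin.sum_univ_succ, η, Fin.cons_zero, Fin.cons_succ, Fin.val_zero, pow_zero, mul_one,
      add_sub_cancel_left]
    apply T.O.valuation.map_sum_lt one_ne_zero
    intro i _
    rw [map_mul, map_pow]
    exact mul_lt_one_of_nonneg_of_lt_one_left zero_le' (hrH i).2 (pow_le_one₀ zero_le' hv)
  obtain ⟨ρ, hρ, hρq⟩ := T.hens _ (Nm_mem T.m1 hη) h1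
  have hρ0 : ρ ≠ 0 := by
    rintro rfl
    rw [← hρq] at h1
    simp at h1
  have hN : Nm n T.t1 (fun i => s / ρ * η i) = s ^ (n + 1) := by
    have : Nm n T.t1 (fun i => s / ρ * η i) = (s / ρ) ^ (n + 1) * Nm n T.t1 η := by
      have e : (s / ρ) ^ (n + 1) = ((rts n T.t1).map fun _ => s / ρ).prod := by
        rw [Multiset.map_const', Multiset.prod_replicate, card_rts]
      rw [Nm_prod, Nm_prod, e, ← Multiset.prod_map_mul]
      congr 2
      funext μ
      rw [Finset.mul_sum]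
      simp only [mul_assoc]
    rw [this, ← hρq, div_pow, div_mul_cancel₀ _ (pow_ne_zero _ hρ0)]
  refine ⟨fun i => s / ρ * η i, fun i => T.H.mul_mem (T.H.div_mem hs hρ) (hη i), hN,
    indep_mono (le_adj S {s}) ?_⟩
  apply indep_tail (le_adj _ _ ht) (S'.pow_mem hsS _) hN hr
  intro i
  have e : r i = (s / ρ * η i.succ) / (s / ρ * η 0) := by
    simp only [η, Fin.cons_zero, Fin.cons_succ]
    field_simp
  rw [e]
  apply adj_le_acl
  exact div_mem (sub_adj _ _ ⟨i.succ, rfl⟩) (sub_adj _ _ ⟨0, rfl⟩)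

theorem obstruct {ξ : Fin (n + 1) → R} (hξ : ∀ i, ξ i ∈ T.H) {x : R} (hx : x ∈ T.H) (hx0 : x ≠ 0)
    (hn : 1 ≤ n) : T.O.valuation (Nm n T.t1 ξ) ≠ T.O.valuation (T.t2 * x ^ (n + 1)) := by
  intro he
  set v := T.O.valuation with hv
  have h1 : v T.t1 ≠ 0 := (map_ne_zero v).2 T.n1
  obtain ⟨i0, -, hi0⟩ := Finset.univ.exists_max_image
    (fun i : Fin (n + 1) => v (ξ i) ^ (n + 1) * v T.t1 ^ (i : ℕ)) ⟨0, Finset.mem_univ _⟩
  have each : ∀ μ ∈ rts n T.t1, v (∑ i : Fin (n + 1), ξ i * μ ^ (i : ℕ)) ^ (n + 1) =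
      v (ξ i0) ^ (n + 1) * v T.t1 ^ (i0 : ℕ) := by
    intro μ hμ
    have hp : ∀ i : Fin (n + 1), v (ξ i * μ ^ (i : ℕ)) ^ (n + 1) =
        v (ξ i) ^ (n + 1) * v T.t1 ^ (i : ℕ) := by
      intro i
      rw [← mem_rts.1 hμ, map_mul, map_pow, map_pow, mul_pow, ← pow_mul, ← pow_mul,
        mul_comm (i : ℕ)]
    obtain ⟨i, -, hi, hmax⟩ := dv v Finset.univ ⟨0, Finset.mem_univ _⟩
      (fun i : Fin (n + 1) => ξ i * μ ^ (i : ℕ)) (by
        intro i _ j _ hij hi heq
        have hi' : ξ i ≠ 0 := left_ne_zero_of_mul hi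
        have hj' : ξ j ≠ 0 := by
          intro h0
          rw [h0, zero_mul, map_zero, map_eq_zero] at heq
          exact hi heq
        have e := congrArg (· ^ (n + 1)) heq
        simp only [hp] at e
        have hvi : v (ξ i) ≠ 0 := (map_ne_zero v).2 hi'
        have := (T.inv ((i : ℕ) - (j : ℕ)) 0 (ξ j / ξ i) (T.H.div_mem (hξ j) (hξ i))
          (div_ne_zero hj' hi') (by
            rw [zpow_zero, mul_one, zpow_sub₀ h1, zpow_natCast, zpow_natCast, map_div₀, div_pow,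
              div_eq_div_iff (pow_ne_zero _ h1) (pow_ne_zero _ hvi), mul_comm, e])).1
        have h2 := Int.eq_zero_of_abs_lt_dvd this (by
          have := i.2; have := j.2
          rw [abs_lt]; constructor <;> push_cast <;> omega)
        exact hij (Fin.ext (by omega)))
    rw [hi, hp]
    apply le_antisymm (hi0 i (Finset.mem_univ _))
    rw [← hp, ← hp]
    exact pow_le_pow_left₀ zero_le' (hmax i0 (Finset.mem_univ _)) _
  have h2 : v (Nm n T.t1 ξ) = v (ξ i0) ^ (n + 1) * v T.t1 ^ (i0 : ℕ) := by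
    apply pow_left_injective (n := n + 1) n.succ_ne_zero
    simp only
    rw [Nm_prod, map_multiset_prod, Multiset.map_map, ← Multiset.prod_map_pow]
    simp only [Function.comp_apply]
    rw [Multiset.map_congr rfl (g := fun _ => v (ξ i0) ^ (n + 1) * v T.t1 ^ (i0 : ℕ))
      (fun μ hμ => each μ hμ), Multiset.map_const', Multiset.prod_replicate, card_rts]
  rw [h2, map_mul, map_pow] at he
  have hvx : v x ≠ 0 := (map_ne_zero v).2 hx0
  have hξ0 : ξ i0 ≠ 0 := by
    intro h0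
    rw [h0, map_zero, zero_pow n.succ_ne_zero, zero_mul] at he
    exact mul_ne_zero ((map_ne_zero v).2 T.n2) (pow_ne_zero _ hvx) he.symm
  have := (T.inv (-(i0 : ℕ)) 1 (ξ i0 / x) (T.H.div_mem (hξ i0) hx) (div_ne_zero hξ0 hx0) (by
    rw [zpow_one, zpow_neg, zpow_natCast, map_div₀, div_pow, eq_div_iff (pow_ne_zero _ hvx),
      mul_assoc, ← he, mul_comm (v (ξ i0) ^ (n + 1)), inv_mul_cancel_left₀ (pow_ne_zero _ h1)])).2
  have h3 := Int.le_of_dvd one_pos this
  push_cast at h3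
  omega

theorem lt_of_norm {ξ : Fin (n + 1) → R} (hξ : ∀ i, ξ i ∈ T.H) {x : R} (hx : x ∈ T.H)
    (hn : 1 ≤ n) (h : Nm n T.t1 ξ = 1 + T.t2 * x ^ (n + 1)) :
    T.O.valuation (T.t2 * x ^ (n + 1)) < 1 := by
  by_cases hx0 : x = 0
  · simp [hx0]
  rcases lt_trichotomy (T.O.valuation (T.t2 * x ^ (n + 1))) 1 with h1 | h1 | h1
  · exact h1
  · exfalso
    have hvx : T.O.valuation x ≠ 0 := (_root_.map_ne_zero _).2 hx0
    have := (T.inv 0 1 x⁻¹ (T.H.inv_mem hx) (inv_ne_zero hx0) (by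
      rw [map_mul, map_pow] at h1
      rw [zpow_zero, one_mul, zpow_one, map_inv₀, inv_pow]
      exact eq_inv_of_mul_eq_one_left h1)).2
    have h3 := Int.le_of_dvd one_pos this
    push_cast at h3
    omega
  · exfalso
    apply T.obstruct hξ hx hx0 hn
    rw [h, Valuation.map_add_eq_of_lt_right _ (by simpa using h1)]

theorem succ_lt {x : R} (h : T.O.valuation (T.t2 * x ^ (n + 1)) < 1) :
    T.O.valuation (T.t2 * (x + 1) ^ (n + 1)) < 1 := by
  rw [map_mul, map_pow] at h ⊢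
  rcases T.O.valuation.map_add' x 1 with h1 | h1
  · exact lt_of_le_of_lt (mul_le_mul_right (pow_le_pow_left₀ zero_le' h1 _) _) h
  · rw [map_one] at h1
    exact mul_lt_one_of_nonneg_of_lt_one_left zero_le' T.l2 (pow_le_one₀ zero_le' h1)

end Target

end Field

end Pool.Agent.MP_b4c6b8_lc.H74
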