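import Pool.Agent.MP_b4c6b8_lc.H74.Norm

/-! Existence of target fields inside an ultrapower. -/

set_option linter.unusedSectionVars false

namespace Pool.Agent.MP_b4c6b8_lc.H74

open Polynomial Set Filter

/-- The ultrapower. -/
abbrev UP (K : Type) : Type := Germ (hyperfilter ℕ : Filter ℕ) K

/-- The diagonal embedding. -/
noncomputable def cst (K : Type) [Field K] : K →+* UP K :=
  (Germ.coeRingHom _).comp (Pi.constRingHom ℕ K)

theorem cst_apply {K : Type} [Field K] (x : K) : cst K x = ((fun _ => x : ℕ → K) : UP K) := rfl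

instance {K : Type} [Field K] [CharZero K] : CharZero (UP K) :=
  charZero_of_injective_ringHom (cst K).injective

theorem exists_rep {K : Type} (x : UP K) : ∃ f : ℕ → K, (f : UP K) = x :=
  Germ.inductionOn x fun f => ⟨f, rfl⟩

instance {K : Type} [Field K] [IsAlgClosed K] : IsAlgClosed (UP K) := by
  apply IsAlgClosed.of_exists_root
  intro p hm hirr
  have hd : 0 < p.natDegree := hirr.natDegree_pos
  choose f hf using fun i => exists_rep (p.coeff i)
  have : ∀ k : ℕ, ∃ r : K, r ^ p.natDegree + ∑ i ∈ Finset.range p.natDegree, f i k * r ^ i = 0 := by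
    intro k
    let pk : K[X] := X ^ p.natDegree + ∑ i ∈ Finset.range p.natDegree, C (f i k) * X ^ i
    have hlt : (∑ i ∈ Finset.range p.natDegree, C (f i k) * X ^ i : K[X]).degree <
        (X ^ p.natDegree : K[X]).degree := by
      rw [degree_X_pow]
      refine (degree_sum_le _ _).trans_lt ?_
      rw [Finset.sup_lt_iff (WithBot.bot_lt_coe _)]
      intro i hi
      exact (degree_C_mul_X_pow_le _ _).trans_lt (by exact_mod_cast Finset.mem_range.1 hi)
    obtain ⟨r, hr⟩ := IsAlgClosed.exists_root pk (by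
      rw [degree_add_eq_left_of_degree_lt hlt, degree_X_pow]
      exact_mod_cast hd.ne')
    exact ⟨r, by simpa [pk, eval_finset_sum] using hr⟩
  choose r hr using this
  refine ⟨(r : UP K), ?_⟩
  rw [hm.as_sum, eval_add, eval_pow, eval_X, eval_finset_sum]
  simp only [eval_mul, eval_C, eval_pow, eval_X, ← hf]
  have e : (r ^ p.natDegree + ∑ i ∈ Finset.range p.natDegree, f i * r ^ i : ℕ → K) = 0 := by
    funext k; simpa [Finset.sum_apply] using hr k
  have := congrArg (Germ.coeRingHom (hyperfilter ℕ : Filter ℕ)) e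
  simpa only [map_add, map_pow, map_sum, map_mul, map_zero, Germ.coe_coeRingHom] using this

/-- The ultrapower of a valuation ring. -/
def upO {K : Type} [Field K] (O : ValuationSubring K) : ValuationSubring (UP K) where
  carrier := {x | Germ.LiftPred (· ∈ O) x}
  mul_mem' := by
    intro x y
    refine Germ.inductionOn₂ x y fun f g hf hg => ?_
    simp only [mem_setOf_eq, ← Germ.coe_mul, Germ.liftPred_coe] at hf hg ⊢
    filter_upwards [hf, hg] with k h1 h2 using O.mul_mem _ _ h1 h2
  one_mem' := Germ.liftPred_const O.one_mem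
  add_mem' := by
    intro x y
    refine Germ.inductionOn₂ x y fun f g hf hg => ?_
    simp only [mem_setOf_eq, ← Germ.coe_add, Germ.liftPred_coe] at hf hg ⊢
    filter_upwards [hf, hg] with k h1 h2 using O.add_mem _ _ h1 h2
  zero_mem' := Germ.liftPred_const O.zero_mem
  neg_mem' := by
    intro x
    refine Germ.inductionOn x fun f hf => ?_
    simp only [mem_setOf_eq, ← Germ.coe_neg, Germ.liftPred_coe] at hf ⊢
    filter_upwards [hf] with k h1 using O.neg_mem _ h1
  mem_or_inv_mem' := by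
    intro x
    refine Germ.inductionOn x fun f => ?_
    simp only [mem_setOf_eq, ← Germ.coe_inv, Germ.liftPred_coe]
    exact Ultrafilter.eventually_or.1 (Eventually.of_forall fun k => O.mem_or_inv_mem (f k))

theorem upO_le {K : Type} [Field K] (O : ValuationSubring K) (f g : ℕ → K) :
    (upO O).valuation (f : UP K) ≤ (upO O).valuation (g : UP K) ↔
      ∀ᶠ k in (hyperfilter ℕ : Filter ℕ), O.valuation (f k) ≤ O.valuation (g k) := by
  simp only [ValuationSubring.valuation_le_iff]
  constructor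
  · rintro ⟨⟨a, ha⟩, he⟩
    obtain ⟨α, rfl⟩ := exists_rep a
    have h1 : ∀ᶠ k in (hyperfilter ℕ : Filter ℕ), α k ∈ O := Germ.liftPred_coe.1 ha
    have h2 : α * g =ᶠ[(hyperfilter ℕ : Filter ℕ)] f := Germ.coe_eq.1 he
    filter_upwards [h1, h2] with k hk1 hk2 using ⟨⟨α k, hk1⟩, hk2⟩
  · intro h
    classical
    let α : ℕ → K := fun k => if h : ∃ a : O, (a : K) * g k = f k then (h.choose : K) else 0
    have h1 : ∀ k, α k ∈ O := fun k => by
      simp only [α]; split_ifs
      · exact Subtype.prop _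
      · exact O.zero_mem
    refine ⟨⟨(α : UP K), Germ.liftPred_coe.2 (Eventually.of_forall h1)⟩, ?_⟩
    change ((α * g : ℕ → K) : UP K) = f
    apply Germ.coe_eq.2
    filter_upwards [h] with k hk
    simp only [Pi.mul_apply, α, dif_pos hk]
    exact hk.choose_spec

theorem upO_lt {K : Type} [Field K] (O : ValuationSubring K) (f g : ℕ → K) :
    (upO O).valuation (f : UP K) < (upO O).valuation (g : UP K) ↔
      ∀ᶠ k in (hyperfilter ℕ : Filter ℕ), O.valuation (f k) < O.valuation (g k) := by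
  rw [← not_le, upO_le, ← Ultrafilter.eventually_not]
  simp only [not_le]

theorem upO_eq {K : Type} [Field K] (O : ValuationSubring K) (f g : ℕ → K)
    (h : (upO O).valuation (f : UP K) = (upO O).valuation (g : UP K)) :
      ∀ᶠ k in (hyperfilter ℕ : Filter ℕ), O.valuation (f k) = O.valuation (g k) := by
  filter_upwards [(upO_le O f g).1 h.le, (upO_le O g f).1 h.ge] with k h1 h2 using le_antisymm h1 h2

theorem arith3 {i j a b c : ℤ} (hab : a < b) (hbc : b < c)
    (h1 : (i * a + j) * b ^ 2 = (i * b + j) * a ^ 2) (h2 : (i * a + j) * c ^ 2 = (i * c + j) * a ^ 2)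
    (h3 : (i * b + j) * c ^ 2 = (i * c + j) * b ^ 2) : i = 0 ∧ j = 0 := by
  have e1 : i * a * b + j * (a + b) = 0 := by
    have : (b - a) * (i * a * b + j * (a + b)) = 0 := by linear_combination h1
    exact (mul_eq_zero.1 this).resolve_left (by omega)
  have e2 : i * a * c + j * (a + c) = 0 := by
    have : (c - a) * (i * a * c + j * (a + c)) = 0 := by linear_combination h2
    exact (mul_eq_zero.1 this).resolve_left (by omega)
  have e3 : i * b * c + j * (b + c) = 0 := by
    have : (c - b) * (i * b * c + j * (b + c)) = 0 := by linear_combination h3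
    exact (mul_eq_zero.1 this).resolve_left (by omega)
  have f1 : i * a + j = 0 := by
    have : (c - b) * (i * a + j) = 0 := by linear_combination e2 - e1
    exact (mul_eq_zero.1 this).resolve_left (by omega)
  have f2 : i * b + j = 0 := by
    have : (c - a) * (i * b + j) = 0 := by linear_combination e3 - e1
    exact (mul_eq_zero.1 this).resolve_left (by omega)
  have g : i = 0 := by
    have : (b - a) * i = 0 := by linear_combination f2 - f1
    exact (mul_eq_zero.1 this).resolve_left (by omega)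
  subst g
  exact ⟨rfl, by simpa using f1⟩

theorem exists_pre {K : Type} [Field K] [IsAlgClosed K] [CharZero K] {a : K}
    (ha : Transcendental ℚ a) :
    ∃ (O : ValuationSubring (UP K)) (t1 t2 : UP K), t1 ≠ 0 ∧ t2 ≠ 0 ∧ O.valuation t1 < 1 ∧
      O.valuation t2 < 1 ∧ (∀ x, IsAlgebraic ℚ x → O.valuation (cst K x) ≤ 1) ∧
      1 < O.valuation (t2 * cst K a) ∧
      ∀ i j : ℤ, ∀ α, O.valuation t1 ^ i * O.valuation t2 ^ j = O.valuation (cst K α) →
        i = 0 ∧ j = 0 := by
  have hx : a ∉ (integralClosure ℚ K).toSubring := fun h => ha (IsIntegral.isAlgebraic h)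
  obtain ⟨O, hO, haO⟩ := Subring.exists_le_valuationSubring_of_isIntegrallyClosedIn hx
  have ha0 : a ≠ 0 := fun h => haO (h ▸ O.zero_mem)
  have hva : 1 < O.valuation a := not_le.1 fun h => haO ((O.valuation_le_one_iff a).1 h)
  have hπ : O.valuation a⁻¹ < 1 := (O.valuation.one_lt_val_iff ha0).1 hva
  have hπ0 : O.valuation a⁻¹ ≠ 0 := by simpa using ha0
  choose σ hσ using fun k : ℕ => IsAlgClosed.exists_pow_nat_eq a⁻¹ (n := (k + 2) ^ 2) (by positivity)
  have hσ0 : ∀ k, σ k ≠ 0 := fun k h => by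
    have := hσ k
    rw [h, zero_pow (by positivity)] at this
    exact inv_ne_zero ha0 this.symm
  have hσ1 : ∀ k, O.valuation (σ k) < 1 := fun k => by
    by_contra h
    have := one_le_pow₀ (not_lt.1 h) (n := (k + 2) ^ 2)
    rw [← map_pow, hσ] at this
    exact absurd hπ (not_lt.2 this)
  have one_eq : (1 : (upO O).ValueGroup) = (upO O).valuation ((fun _ => 1 : ℕ → K) : UP K) :=
    (map_one _).symm
  refine ⟨upO O, ((fun k => σ k ^ (k + 2) : ℕ → K) : UP K), (σ : UP K), ?_, ?_, ?_, ?_, ?_, ?_, ?_⟩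
  · intro h
    obtain ⟨k, hk⟩ := (Germ.coe_eq.1 h).exists
    exact pow_ne_zero _ (hσ0 k) hk
  · intro h
    obtain ⟨k, hk⟩ := (Germ.coe_eq.1 h).exists
    exact hσ0 k hk
  · rw [one_eq, upO_lt]
    refine Eventually.of_forall fun k => ?_
    rw [map_one, map_pow]
    exact pow_lt_one₀ zero_le' (hσ1 k) (by omega)
  · rw [one_eq, upO_lt]
    exact Eventually.of_forall fun k => by rw [map_one]; exact hσ1 k
  · intro x hx
    rw [one_eq, cst_apply, upO_le]
    refine Eventually.of_forall fun k => ?_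
    rw [map_one, O.valuation_le_one_iff]
    exact hO hx.isIntegral
  · rw [one_eq, cst_apply, ← Germ.coe_mul, upO_lt]
    refine Eventually.of_forall fun k => ?_
    have e : σ k * a = (σ k ^ ((k + 2) ^ 2 - 1))⁻¹ := by
      have h1 : σ k ^ ((k + 2) ^ 2) = σ k ^ ((k + 2) ^ 2 - 1) * σ k := by
        have : 0 < (k + 2) ^ 2 := by positivity
        rw [← pow_succ, Nat.sub_add_cancel this]
      have h2 := hσ k
      rw [h1] at h2
      apply eq_inv_of_mul_eq_one_right
      rw [← mul_assoc, h2, inv_mul_cancel₀ ha0]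
    simp only [Pi.mul_apply, map_one]
    rw [e, ← O.valuation.val_lt_one_iff (pow_ne_zero _ (hσ0 k)), map_pow]
    apply pow_lt_one₀ zero_le' (hσ1 k)
    have : 2 ^ 2 ≤ (k + 2) ^ 2 := Nat.pow_le_pow_left (by omega) 2
    omega
  · intro i j α h
    rw [← map_zpow₀, ← map_zpow₀, ← map_mul, ← Germ.coe_pow, ← Germ.coe_pow, ← Germ.coe_mul,
      cst_apply] at h
    have h1 := upO_eq O _ _ h
    have h2 : ∀ᶠ k : ℕ in (hyperfilter ℕ : Filter ℕ),
        O.valuation a⁻¹ ^ (i * (k + 2 : ℤ) + j) = O.valuation α ^ (((k + 2 : ℤ)) ^ 2) := by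
      filter_upwards [h1] with k hk
      have hs : O.valuation (σ k) ≠ 0 := by simpa using hσ0 k
      simp only [Pi.mul_apply, Pi.pow_apply, map_mul, map_zpow₀, map_pow] at hk
      rw [← hk, ← hσ k, map_pow, ← zpow_natCast, ← zpow_natCast, ← zpow_mul, ← zpow_mul,
        ← zpow_add₀ hs, ← zpow_mul]
      congr 1
      push_cast
      ring
    have hinf : {k : ℕ | O.valuation a⁻¹ ^ (i * (k + 2 : ℤ) + j) =
        O.valuation α ^ (((k + 2 : ℤ)) ^ 2)}.Infinite := fun hf =>
      hf.notMem_hyperfilter h2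
    obtain ⟨k1, h1⟩ := hinf.nonempty
    obtain ⟨k2, h2, l2⟩ := hinf.exists_gt k1
    obtain ⟨k3, h3, l3⟩ := hinf.exists_gt k2
    have key : ∀ k l : ℕ, O.valuation a⁻¹ ^ (i * (k + 2 : ℤ) + j) =
        O.valuation α ^ (((k + 2 : ℤ)) ^ 2) → O.valuation a⁻¹ ^ (i * (l + 2 : ℤ) + j) =
        O.valuation α ^ (((l + 2 : ℤ)) ^ 2) →
        (i * (k + 2 : ℤ) + j) * (l + 2) ^ 2 = (i * (l + 2 : ℤ) + j) * (k + 2) ^ 2 := by
      intro k l hk hl
      apply zpow_right_injective₀ (zero_lt_iff.2 hπ0) hπ.ne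
      simp only
      rw [zpow_mul, zpow_mul, hk, hl, ← zpow_mul, ← zpow_mul, mul_comm]
    exact arith3 (by omega) (by omega) (key _ _ h1 h2) (key _ _ h1 h3) (key _ _ h2 h3)

/-- A target field compatible with an embedding `κ`. -/
structure Tgt {M R : Type} [Field M] [CharZero M] [Field R] (n : ℕ) (κ : M →+* R) (a : M)
    extends Target (n + 1) R where
  k1 : ∀ m, κ m ∈ H
  k2 : ∀ m, ∃ β ∈ H, β ^ (n + 1) = κ m
  k3 : AlgebraicIndependent κ.fieldRange ![t1, t2]
  k4 : ∀ m, IsAlgebraic ℚ m → O.valuation (κ m) ≤ 1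
  k5 : Transcendental ℚ a → 1 < O.valuation (t2 * κ a ^ (n + 1))

theorem exists_tgt {M : Type} [Field M] [CharZero M] {n : ℕ} (hq : (n + 1).Prime) (a : M)
    (ha : Transcendental ℚ a) :
    Nonempty (Tgt n ((cst (AlgebraicClosure M)).comp (algebraMap M (AlgebraicClosure M))) a) := by
  classical
  set K := AlgebraicClosure M
  have ha' : Transcendental ℚ (algebraMap M K a) :=
    (transcendental_algebraMap_iff (algebraMap M K).injective).2 ha
  obtain ⟨O, t1, t2, n1, n2, l1, l2, k4, k5, hind⟩ := exists_pre ha'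
  set v := O.valuation
  have v1 : v t1 ≠ 0 := by simpa using n1
  have v2 : v t2 ≠ 0 := by simpa using n2
  let F := (cst K).fieldRange
  have val : ∀ p : MvPolynomial (Fin 2) F, p ≠ 0 → ∃ (α : K) (k l : ℤ), α ≠ 0 ∧
      v (MvPolynomial.aeval ![t1, t2] p) = v (cst K α) * v t1 ^ k * v t2 ^ l := by
    intro p hp
    have term : ∀ d : Fin 2 →₀ ℕ, ∀ α, cst K α = p.coeff d →
        v (algebraMap F (UP K) (p.coeff d) * ∏ i, ![t1, t2] i ^ d i) =
          v (cst K α) * v t1 ^ (d 0 : ℤ) * v t2 ^ (d 1 : ℤ) := by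
      intro d α hα
      rw [hα]
      simp only [Fin.prod_univ_two, mul_assoc, map_mul, map_pow, zpow_natCast]
      rfl
    obtain ⟨d, hd, he, -⟩ := dv v p.support (MvPolynomial.support_nonempty.2 hp)
      (fun d => algebraMap F (UP K) (p.coeff d) * ∏ i, ![t1, t2] i ^ d i) (by
        intro d hd d' hd' hne _ heq
        obtain ⟨α, hα⟩ := (p.coeff d).2
        obtain ⟨β, hβ⟩ := (p.coeff d').2
        have hα0 : v (cst K α) ≠ 0 := by
          rw [hα]; simpa using MvPolynomial.mem_support_iff.1 hd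
        rw [term d α hα, term d' β hβ] at heq
        have := hind ((d 0 : ℤ) - d' 0) ((d 1 : ℤ) - d' 1) (β / α) (by
          rw [map_div₀, map_div₀, zpow_sub₀ v1, zpow_sub₀ v2, div_mul_div_comm,
            div_eq_div_iff (mul_ne_zero (zpow_ne_zero _ v1) (zpow_ne_zero _ v2)) hα0,
            ← mul_assoc, ← heq]
          ac_rfl)
        apply hne
        ext i
        fin_cases i
        · simp only [Fin.zero_eta]; omega
        · simp only [Fin.mk_one]; omega)
    obtain ⟨α, hα⟩ := (p.coeff d).2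
    refine ⟨α, d 0, d 1, ?_, ?_⟩
    · rintro rfl
      apply MvPolynomial.mem_support_iff.1 hd
      apply Subtype.ext
      rw [← hα, map_zero]; rfl
    · rw [MvPolynomial.aeval_def, MvPolynomial.eval₂_eq', he, term d α hα]
  have ne : ∀ p : MvPolynomial (Fin 2) F, p ≠ 0 → MvPolynomial.aeval ![t1, t2] p ≠ 0 := by
    intro p hp h0
    obtain ⟨α, k, l, hα, he⟩ := val p hp
    rw [h0, map_zero] at he
    exact mul_ne_zero (mul_ne_zero (by simpa using hα) (zpow_ne_zero _ v1)) (zpow_ne_zero _ v2)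
      he.symm
  have hI : Inv v (n + 1) t1 t2 (adj F (range ![t1, t2])) := by
    intro i j z hz hz0 he
    obtain ⟨r, s, rfl⟩ := (IntermediateField.mem_adjoin_range_iff F _ z).1 hz
    have hr : r ≠ 0 := by rintro rfl; simp at hz0
    have hs : s ≠ 0 := by rintro rfl; simp at hz0
    obtain ⟨α, k, l, hα, e1⟩ := val r hr
    obtain ⟨β, k', l', hβ, e2⟩ := val s hs
    have hβ' : v (cst K β) ≠ 0 := by simpa using hβ
    have := hind (i - (n + 1 : ℕ) * (k - k')) (j - (n + 1 : ℕ) * (l - l')) ((α / β) ^ (n + 1)) (by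
      rw [zpow_sub₀ v1, zpow_sub₀ v2, div_mul_div_comm, he, map_div₀, e1, e2, map_pow, map_pow,
        map_div₀, map_div₀, mul_comm ((n + 1 : ℕ) : ℤ), mul_comm ((n + 1 : ℕ) : ℤ), zpow_mul,
        zpow_mul, zpow_natCast, zpow_natCast, ← mul_pow, ← div_pow, zpow_sub₀ v1, zpow_sub₀ v2]
      congr 1
      have := zpow_ne_zero k v1
      have := zpow_ne_zero k' v1
      have := zpow_ne_zero l v2
      have := zpow_ne_zero l' v2
      field_simp)
    exact ⟨⟨k - k', by omega⟩, ⟨l - l', by omega⟩⟩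
  have hvq : v ((n + 1 : ℕ) : UP K) = 1 := by
    apply le_antisymm
    · rw [← map_natCast (cst K)]
      exact k4 _ (isAlgebraic_natCast _)
    · rw [v.one_le_val_iff (Nat.cast_ne_zero.2 n.succ_ne_zero), ← map_natCast (cst K), ← map_inv₀]
      exact k4 _ (isAlgebraic_natCast _).inv
  obtain ⟨H, hH, inv, small, hens⟩ := exists_max v hq hq.two_le hvq hI
  have hF : ∀ x, cst K x ∈ H := fun x => hH (le_adj _ _ ⟨x, rfl⟩)
  refine ⟨⟨⟨O, H, t1, t2, hH (sub_adj _ _ ⟨0, rfl⟩), hH (sub_adj _ _ ⟨1, rfl⟩), n1, n2, l1, l2, inv,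
    small, hens⟩, fun m => hF _, fun m => ?_, ?_, fun m hm => k4 _ hm.algebraMap, fun _ => ?_⟩⟩
  · obtain ⟨β, hβ⟩ := IsAlgClosed.exists_pow_nat_eq (algebraMap M K m) n.succ_pos
    exact ⟨cst K β, hF _, by rw [← map_pow, hβ]; rfl⟩
  · apply indep_mono (S' := F)
    · rintro _ ⟨m, rfl⟩; exact ⟨_, rfl⟩
    · rw [algebraicIndependent_iff]
      intro p hp
      by_contra h
      exact ne p h hp
  · change 1 < v (t2 * cst K (algebraMap M K a) ^ (n + 1))
    rw [pow_succ', ← mul_assoc, map_mul, map_pow]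
    have h1 : 1 ≤ v (cst K (algebraMap M K a)) := by
      by_contra h
      rw [map_mul] at k5
      exact absurd k5 (not_lt.2 (mul_le_one' l2.le (not_le.1 h).le))
    exact one_lt_mul_of_lt_of_le' k5 (one_le_pow₀ h1)

end Pool.Agent.MP_b4c6b8_lc.H74
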