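import Pool.Agent.MP_b4c6b8_lc.H74.Build
import Pool.Agent.MP_b4c6b8_lc.H74.Defs

/-! The ultrapower of an algebraically bounded field and the Tarski Vaught test. -/

set_option linter.unusedSectionVars false

namespace Pool.Agent.MP_b4c6b8_lc.H74

open FirstOrder FirstOrder.Language FirstOrder.Ring Filter Set Polynomial

theorem realize_hom {α A B : Type} [CommRing A] [CommRing B] [CompatibleRing A] [CompatibleRing B]
    (φ : A →+* B) (t : Language.ring.Term α) (v : α → A) :
    t.realize (fun a => φ (v a)) = φ (t.realize v) := by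
  induction t with
  | var a => rfl
  | func f ts ih => cases f <;> simp [Term.realize, ih]

section Los
variable {K : Type} [Field K] [CompatibleRing K] [CompatibleRing (UP K)]

theorem los_term {α : Type} (t : Language.ring.Term α) (v : α → ℕ → K) :
    t.realize (fun a => (v a : UP K)) = ((fun k => t.realize fun a => v a k : ℕ → K) : UP K) := by
  letI := compatibleRingOfRing (ℕ → K)
  have h1 := realize_hom (Germ.coeRingHom (hyperfilter ℕ : Filter ℕ)) t v
  refine h1.trans (congrArg _ (funext fun k => ?_))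
  exact (realize_hom (Pi.evalRingHom (fun _ => K) k) t v).symm

theorem snoc_coe {n : ℕ} (a : Fin n → ℕ → K) (b : ℕ → K) :
    (Fin.snoc (fun i => (a i : UP K)) (b : UP K) : Fin (n + 1) → UP K) =
      fun i => ((Fin.snoc a b : Fin (n + 1) → ℕ → K) i : UP K) := by
  funext i
  refine Fin.lastCases ?_ (fun j => ?_) i <;> simp

theorem snoc_eval {n : ℕ} (a : Fin n → ℕ → K) (b : ℕ → K) (k : ℕ) :
    (fun i => (Fin.snoc a b : Fin (n + 1) → ℕ → K) i k) = Fin.snoc (fun i => a i k) (b k) := by
  funext i
  refine Fin.lastCases ?_ (fun j => ?_) i <;> simp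

theorem los {n : ℕ} (φ : Language.ring.BoundedFormula Empty n) (a : Fin n → ℕ → K) :
    φ.Realize Empty.elim (fun i => (a i : UP K)) ↔
      ∀ᶠ k in (hyperfilter ℕ : Filter ℕ), φ.Realize Empty.elim fun i => a i k := by
  induction φ with
  | falsum => exact ⟨False.elim, fun h => h.exists.choose_spec⟩
  | equal t u =>
    have e : ∀ t : Language.ring.Term (Empty ⊕ Fin _), t.realize (Sum.elim Empty.elim
        fun i => (a i : UP K)) =
        ((fun k => t.realize (Sum.elim Empty.elim fun i => a i k) : ℕ → K) : UP K) := by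
      intro t
      have := los_term t (Sum.elim Empty.elim a)
      convert this using 3
      · rename_i x; rcases x with x | x
        · exact x.elim
        · rfl
      · congr 1
        funext x; rcases x with x | x
        · exact x.elim
        · rfl
    simp only [BoundedFormula.Realize, e, Germ.coe_eq]
    rfl
  | rel R _ => exact R.elim
  | imp φ ψ ih1 ih2 =>
    simp only [BoundedFormula.realize_imp, ih1, ih2, Ultrafilter.eventually_imp]
  | all φ ih =>
    simp only [BoundedFormula.realize_all]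
    constructor
    · intro h
      by_contra hcon
      rw [← Ultrafilter.eventually_not] at hcon
      classical
      let b : ℕ → K := fun k =>
        if h : ∃ y, ¬ φ.Realize Empty.elim (Fin.snoc (fun i => a i k) y) then h.choose else 0
      have h1 := h (b : UP K)
      rw [snoc_coe, ih] at h1
      obtain ⟨k, hk1, hk2⟩ := (h1.and hcon).exists
      rw [not_forall] at hk2
      rw [snoc_eval] at hk1
      simp only [b, dif_pos hk2] at hk1
      exact hk2.choose_spec hk1
    · intro h y
      obtain ⟨b, rfl⟩ := exists_rep y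
      rw [snoc_coe, ih]
      filter_upwards [h] with k hk
      rw [snoc_eval]
      exact hk _

theorem unc_internal (X : ℕ → Set K) (h : ∀ᶠ k in (hyperfilter ℕ : Filter ℕ), (X k).Infinite)
    {Y : Set (UP K)} (hY : ∀ b : ℕ → K, (∀ᶠ k in (hyperfilter ℕ : Filter ℕ), b k ∈ X k) →
      (b : UP K) ∈ Y) : ¬ Y.Countable := by
  classical
  intro hc
  obtain ⟨e, he⟩ := (hc.insert 0).exists_eq_range (insert_nonempty _ _)
  choose g hg using fun j => exists_rep (e j)
  have : ∀ k, ∃ y, (X k).Infinite → y ∈ X k ∧ ∀ j ≤ k, y ≠ g j k := by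
    intro k
    by_cases hk : (X k).Infinite
    · obtain ⟨y, h1, h2⟩ := hk.exists_notMem_finset ((Finset.range (k + 1)).image fun j => g j k)
      refine ⟨y, fun _ => ⟨h1, fun j hj e => h2 ?_⟩⟩
      exact Finset.mem_image.2 ⟨j, Finset.mem_range.2 (by omega), e.symm⟩
    · exact ⟨0, fun h => absurd h hk⟩
  choose b hb using this
  have h1 : (b : UP K) ∈ range e := he ▸ mem_insert_of_mem _ (hY b (h.mono fun k hk => (hb k hk).1))
  obtain ⟨j, hj⟩ := h1
  rw [← hg, Germ.coe_eq] at hj
  have h2 : ∀ᶠ k in (hyperfilter ℕ : Filter ℕ), j ≤ k :=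
    Nat.hyperfilter_le_atTop (eventually_ge_atTop j)
  obtain ⟨k, ⟨k1, k2⟩, k3⟩ := ((h.and hj).and h2).exists
  exact (hb k k1).2 j k3 k2.symm

theorem good (hK : AlgBounded K) {n : ℕ} (θ : Language.ring.BoundedFormula Empty (n + 1)) :
    ∃ (C : Set (UP K)) (d : ℕ), C.Countable ∧ ∀ a : Fin n → UP K,
      {b | θ.Realize Empty.elim (Fin.snoc a b)}.Countable →
      ∀ b, θ.Realize Empty.elim (Fin.snoc a b) → ∃ p : (UP K)[X], p ≠ 0 ∧ p.natDegree ≤ d ∧
        (∀ k, p.coeff k ∈ Subfield.closure (C ∪ range a)) ∧ p.eval b = 0 := by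
  classical
  obtain ⟨S, hS⟩ := hK n θ
  refine ⟨⋃ f ∈ S, range fun p : ℕ × (Fin n →₀ ℕ) => cst K ((f.coeff p.1).coeff p.2),
    S.sup natDegree, S.countable_toSet.biUnion fun f _ => countable_range _, ?_⟩
  intro a hc b hb
  choose α hα using fun i => exists_rep (a i)
  obtain rfl : a = fun i => (α i : UP K) := funext fun i => (hα i).symm
  obtain ⟨β, rfl⟩ := exists_rep b
  have hfin : ∀ᶠ k in (hyperfilter ℕ : Filter ℕ),
      {y : K | θ.Realize Empty.elim (Fin.snoc (fun i => α i k) y)}.Finite := by
    by_contra hcon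
    rw [← Ultrafilter.eventually_not] at hcon
    refine unc_internal _ hcon (fun y hy => ?_) hc
    rw [mem_setOf_eq, snoc_coe, los]
    filter_upwards [hy] with k hk
    rw [snoc_eval]
    exact hk
  have h1 := hfin.mono fun k hk => hS _ hk
  obtain ⟨f, hf, h2⟩ := (Ultrafilter.eventually_exists_mem_iff S.finite_toSet).1 h1
  rw [snoc_coe, los] at hb
  let ψ : MvPolynomial (Fin n) K →+* (ℕ → K) := MvPolynomial.eval₂Hom (Pi.constRingHom ℕ K) α
  let G := Germ.coeRingHom (R := K) (hyperfilter ℕ : Filter ℕ)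
  have ev : ∀ k, (f.map ψ).map (Pi.evalRingHom (fun _ => K) k) =
      f.map (MvPolynomial.eval fun i => α i k) := by
    intro k
    rw [Polynomial.map_map]
    congr 1
    ext <;> simp [ψ]
  refine ⟨(f.map ψ).map G, ?_, natDegree_map_le.trans (natDegree_map_le.trans
    (Finset.le_sup (f := natDegree) hf)), fun k => ?_, ?_⟩
  · intro h0
    have h3 : ∀ j ∈ Finset.range (f.natDegree + 1), ∀ᶠ k in (hyperfilter ℕ : Filter ℕ),
        ((f.map ψ).coeff j) k = 0 := by
      intro j _
      have := congrArg (coeff · j) h0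
      simp only [coeff_map, coeff_zero] at this
      rw [coeff_map]
      exact Germ.coe_eq.1 this
    obtain ⟨k, k1, k2⟩ := (((eventually_all_finset _).2 h3).and h2).exists
    apply k2.1
    rw [← ev]
    ext j
    rw [coeff_map, coeff_zero]
    by_cases hj : j ≤ f.natDegree
    · exact k1 j (Finset.mem_range.2 (by omega))
    · rw [coeff_eq_zero_of_natDegree_lt (natDegree_map_le.trans_lt (by omega)), map_zero]
  · rw [coeff_map, coeff_map, (f.coeff k).as_sum]
    simp only [map_sum]
    refine sum_mem fun m _ => ?_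
    simp only [ψ, MvPolynomial.coe_eval₂Hom, MvPolynomial.eval₂_monomial, map_mul, Finsupp.prod,
      map_prod, map_pow]
    refine mul_mem (Subfield.subset_closure (Or.inl ?_)) (prod_mem fun i _ => pow_mem ?_ _)
    · exact mem_biUnion hf ⟨(k, m), rfl⟩
    · exact Subfield.subset_closure (Or.inr ⟨i, rfl⟩)
  · have : ((f.map ψ).map G).eval (G β) = G ((f.map ψ).eval β) := by
      rw [eval_map, eval₂_hom]
    refine this.trans (Germ.coe_eq.2 ?_)
    filter_upwards [h2, hb] with k k1 k2
    rw [snoc_eval] at k2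
    have := k1.2 _ k2
    rw [← ev, eval_map] at this
    exact (eval₂_hom (Pi.evalRingHom (fun _ => K) k) β).symm.trans this

end Los

/-- Formulas under a universal quantifier. -/
def subs : {n : ℕ} → Language.ring.BoundedFormula Empty n →
    List (Σ n, Language.ring.BoundedFormula Empty (n + 1))
  | _, .falsum => []
  | _, .equal _ _ => []
  | _, .rel _ _ => []
  | _, .imp φ ψ => subs φ ++ subs ψ
  | n, .all φ => ⟨n, φ⟩ :: subs φ

theorem tarski_vaught {M : Type} [Field M] [CompatibleRing M] (L : Subfield M) [CompatibleRing L]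
    {n : ℕ} (φ : Language.ring.BoundedFormula Empty n)
    (h : ∀ θ ∈ subs φ, ∀ a : Fin θ.1 → M, (∀ i, a i ∈ L) →
      (∃ b, ¬ θ.2.Realize Empty.elim (Fin.snoc a b)) →
        ∃ b ∈ L, ¬ θ.2.Realize Empty.elim (Fin.snoc a b)) (a : Fin n → L) :
    φ.Realize Empty.elim a ↔ φ.Realize Empty.elim fun i => (a i : M) := by
  induction φ with
  | falsum => rfl
  | equal t u =>
    have e : ∀ t : Language.ring.Term (Empty ⊕ Fin _), t.realize (Sum.elim Empty.elim
        fun i => (a i : M)) = L.subtype (t.realize (Sum.elim Empty.elim a)) := by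
      intro t
      rw [← realize_hom]
      congr 1
      funext x; rcases x with x | x
      · exact x.elim
      · rfl
    simp only [BoundedFormula.Realize, e, L.subtype.injective.eq_iff]
  | rel R _ => exact R.elim
  | imp φ ψ ih1 ih2 =>
    simp only [BoundedFormula.realize_imp]
    rw [ih1 fun θ hθ => h θ (List.mem_append_left _ hθ),
      ih2 fun θ hθ => h θ (List.mem_append_right _ hθ)]
  | @all n φ ih =>
    have ih' := ih fun θ hθ => h θ (List.mem_cons_of_mem _ hθ)
    have e : ∀ b : L, (fun i => ((Fin.snoc a b : Fin (n + 1) → L) i : M)) =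
        Fin.snoc (fun i => (a i : M)) (b : M) := by
      intro b
      funext i
      refine Fin.lastCases ?_ (fun j => ?_) i <;> simp
    simp only [BoundedFormula.realize_all, ih', e]
    refine ⟨fun h1 => ?_, fun h1 b => h1 b⟩
    by_contra hcon
    obtain ⟨b, hb, h2⟩ := h ⟨n, φ⟩ List.mem_cons_self _ (fun i => (a i).2) (not_forall.1 hcon)
    exact h2 (h1 ⟨b, hb⟩)

theorem sent_iff {M : Type} [Language.ring.Structure M] (φ : Language.ring.Sentence)
    (a : Fin 0 → M) : M ⊨ φ ↔ BoundedFormula.Realize φ Empty.elim a := by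
  rw [Sentence.Realize, Formula.Realize, Subsingleton.elim (default : Empty → M) Empty.elim,
    Subsingleton.elim (default : Fin 0 → M) a]

theorem exists_model (K : Type) [Field K] [CharZero K] [CompatibleRing K] (hK : AlgBounded K)
    (Φ : Language.ring.Theory) (hfin : Φ.Finite) (hΦ : K ⊨ Φ) (M0 : Set ℕ) (h0 : 0 ∈ M0) :
    ∃ (n : ℕ) (L : Type) (_ : Field L) (_ : CharZero L) (_ : CompatibleRing L), L ⊨ Φ ∧
      ∃ c0 ε : L, ∀ x : L, Up n c0 ε x ↔ ∃ m ∈ M0, x = m := by
  classical
  letI := compatibleRingOfRing (UP K)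
  let I := {θ : Σ n, Language.ring.BoundedFormula Empty (n + 1) // ∃ φ ∈ Φ, θ ∈ subs φ}
  haveI : Finite I := by
    have : {θ : Σ n, Language.ring.BoundedFormula Empty (n + 1) | ∃ φ ∈ Φ, θ ∈ subs φ}.Finite := by
      have := hfin.biUnion (t := fun φ => {θ | θ ∈ subs φ}) fun φ _ => List.finite_toSet _
      refine this.subset fun θ ⟨φ, h1, h2⟩ => mem_biUnion h1 h2
    exact this
  choose C d hC hd using fun i : I => good hK (i.1.2.not)
  obtain ⟨N, hN⟩ := (Set.finite_range d).bddAbove
  obtain ⟨q, hq1, hq⟩ := Nat.exists_infinite_primes (N + 1)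
  obtain ⟨n, rfl⟩ : ∃ n, q = n + 1 := ⟨q - 1, by omega⟩
  have hM : ¬ (univ : Set (UP K)).Countable :=
    unc_internal (fun _ => univ) (Eventually.of_forall fun _ => infinite_univ) fun _ _ => trivial
  obtain ⟨L, hL, hU⟩ := build hq hM M0 h0 (countable_iUnion hC) (fun i : I => i.1.1)
    (fun i a => {b | (i.1.2.not).Realize Empty.elim (Fin.snoc a b)}) (by
      rintro i a hc ⟨b, hb⟩
      obtain ⟨p, h1, h2, h3, h4⟩ := hd i a hc b hb
      refine ⟨b, hb, p, h1, ?_, fun k => Subfield.closure_mono ?_ (h3 k), h4⟩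
      · have := hN (mem_range_self i)
        omega
      · exact union_subset_union_left _ (subset_iUnion C i))
  letI := compatibleRingOfRing L
  refine ⟨n, L, inferInstance, inferInstance, inferInstance, ⟨fun φ hφ => ?_⟩, hU⟩
  have h1 := hΦ.realize_of_mem φ hφ
  have h2 := (los φ (K := K) Fin.elim0).2 (Eventually.of_forall fun k =>
    (sent_iff φ _).1 h1)
  have h3 := (tarski_vaught L φ (fun θ hθ a ha hb => by
    simpa using hL ⟨θ, φ, hφ, hθ⟩ a ha (by simpa [Set.Nonempty] using hb)) Fin.elim0).2
      ((sent_iff φ _).1 ((sent_iff φ _).2 h2))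
  exact (sent_iff φ _).2 h3

end Pool.Agent.MP_b4c6b8_lc.H74
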